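import Pool.Agent.Lib.RACS.Crv

/-!
# Crossings of the curves (MP_bf8d95_lc)
-/

set_option autoImplicit false

open Pool.Agent.Lib.RACG

namespace Pool.Agent.Lib.RACS

variable {V : Type}

section

variable {K : ℝ} {X Y : V → ℝ} {s t s' t' : V} {i i' : ℝ}

theorem hori_verti (K : ℝ) (X Y : V → ℝ) (s t s' t' : V) (i i' : ℝ) :
    dot (crv K X Y s t i 1 - crv K X Y s t i 0) (crv K X Y s' t' i' 2 - crv K X Y s' t' i' 1) =
      0 := by
  simp [dot, crv]

/-- near the target: `x` has the form `X t + c i` with `0 ≤ c ≤ 1` -/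
theorem gap_eq {K : ℝ} {X : V → ℝ} (hX : Gap K X) {u v : V} {p q : ℝ} (h : X u + p = X v + q)
    (h1 : |p - q| < 4 * K) : u = v := by
  rcases hX u v with h2 | h2 | h2
  · exact h2
  · have := abs_lt.1 h1
    linarith [this.1, this.2]
  · have := abs_lt.1 h1
    linarith [this.1, this.2]

theorem ci_bd {K c i : ℝ} (hi : 0 < i) (hi' : i < K) (h0 : 0 ≤ c) (h1 : c ≤ 1) :
    0 ≤ c * i ∧ c * i ≤ i := ⟨mul_nonneg h0 hi.le, by nlinarith⟩

theorem cs_bd {K c : ℝ} (hK : 0 < K) (Y : V → ℝ) (s t : V) (h0 : 0 ≤ c) (h1 : c ≤ 1) :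
    |c * sgn K Y s t| ≤ K := by
  rw [abs_le]
  rcases sgn_cases K Y s t with ⟨_, h⟩ | ⟨_, h⟩ <;> rw [h] <;> constructor <;> nlinarith

theorem cs_zero {K c : ℝ} (hK : 0 < K) (Y : V → ℝ) (s t : V) (h : c * sgn K Y s t = 0) :
    c = 0 := by
  rcases mul_eq_zero.1 h with h1 | h1
  · exact h1
  · exfalso
    rcases sgn_cases K Y s t with ⟨_, h2⟩ | ⟨_, h2⟩ <;> rw [h2] at h1 <;> linarith

/-- first segment against slanted segment of curves starting horizontally -/
theorem c02 (hK : 0 < K) (hX : Gap K X) (hY : Gap K Y) (hst : s ≠ t)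
    (hi0 : 0 < i) (hi1 : i < K) {x : Pt}
    (h1 : x ∈ segment ℝ (crv K X Y s t i 0) (crv K X Y s t i 1))
    (h2 : x ∈ segment ℝ (crv K X Y s' t' i' 2) (crv K X Y s' t' i' 3)) :
    x = (X t', Y t') := by
  have p := prof0 hK hX hst hi0 hi1 h1
  obtain ⟨c, hc0, hc1, h3, h4⟩ := prof2 h2
  have h5 := cs_bd hK Y s' t' hc0 hc1
  have h6 := abs_le.1 h5
  have h7 : s = t' := gap_eq hY (p := 0) (q := c * sgn K Y s' t') (by rw [← h4, p.1]; ring)
    (by rw [zero_sub, abs_neg]; linarith)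
  have h8 : c * sgn K Y s' t' = 0 := by
    have := p.1
    rw [h4, h7] at this
    linarith
  have h9 := cs_zero hK Y s' t' h8
  refine Prod.ext ?_ ?_
  · simp only
    rw [h3, h9]
    ring
  · simp only
    rw [h4, h9]
    ring

/-- second segment against slanted segment of curves starting horizontally -/
theorem c12 (hK : 0 < K) (hX : Gap K X) (hY : Gap K Y) (hst : s ≠ t)
    (hi0 : 0 < i) (hi1 : i < K) (hi0' : 0 < i') (hi1' : i' < K) (hii : i ≠ i') {x : Pt}
    (h1 : x ∈ segment ℝ (crv K X Y s t i 1) (crv K X Y s t i 2))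
    (h2 : x ∈ segment ℝ (crv K X Y s' t' i' 2) (crv K X Y s' t' i' 3)) : False := by
  have p := prof1 hK hY hst h1
  obtain ⟨c, hc0, hc1, h3, h4⟩ := prof2 h2
  have h5 := ci_bd hi0' hi1' hc0 hc1
  have h7 : t = t' := gap_eq hX (p := i) (q := c * i') (by rw [← h3, p.1])
    (abs_lt.2 ⟨by linarith, by linarith⟩)
  have h8 : i = c * i' := by
    have := p.1
    rw [h3, h7] at this
    linarith
  rcases p.2 with h9 | h9
  · rw [h4, h7] at h9
    rcases sgn_cases K Y s' t' with ⟨_, h10⟩ | ⟨_, h10⟩ <;> rw [h10] at h9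
    · have h11 : c = 1 := by nlinarith
      rw [h11] at h8
      exact hii (by linarith)
    · nlinarith
  · rw [h4, h7] at h9
    rcases sgn_cases K Y s' t' with ⟨_, h10⟩ | ⟨_, h10⟩ <;> rw [h10] at h9
    · nlinarith
    · have h11 : c = 1 := by nlinarith
      rw [h11] at h8
      exact hii (by linarith)

/-- two curves starting horizontally -/
theorem cross_xx (hK : 0 < K) (hX : Gap K X) (hY : Gap K Y) (hst : s ≠ t) (hst' : s' ≠ t')
    (hi0 : 0 < i) (hi1 : i < K) (hi0' : 0 < i') (hi1' : i' < K) (hii : i ≠ i')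
    (hside : s = s' → ¬ (X t < X s ∧ X t' < X s) ∧ ¬ (X s < X t ∧ X s < X t'))
    (a b : ℕ) (ha : a ≤ 2) (hb : b ≤ 2) {x : Pt}
    (h1 : x ∈ segment ℝ (crv K X Y s t i a) (crv K X Y s t i (a + 1)))
    (h2 : x ∈ segment ℝ (crv K X Y s' t' i' b) (crv K X Y s' t' i' (b + 1))) :
    (∃ w, x = (X w, Y w)) ∨
      dot (crv K X Y s t i (a + 1) - crv K X Y s t i a)
        (crv K X Y s' t' i' (b + 1) - crv K X Y s' t' i' b) = 0 := by
  have hca : a = 0 ∨ a = 1 ∨ a = 2 := by omega
  have hcb : b = 0 ∨ b = 1 ∨ b = 2 := by omega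
  rcases hca with rfl | rfl | rfl <;> rcases hcb with rfl | rfl | rfl
  · left
    have p := prof0 hK hX hst hi0 hi1 h1
    have p' := prof0 hK hX hst' hi0' hi1' h2
    have h3 : s = s' := gap_eq hY (p := 0) (q := 0) (by rw [← p.1, ← p'.1])
      (by rw [sub_zero, abs_zero]; linarith)
    subst h3
    have h4 := hside rfl
    refine ⟨s, Prod.ext ?_ p.1⟩
    simp only
    rcases p.2 with ⟨h5, h6⟩ | ⟨h5, h6⟩ <;> rcases p'.2 with ⟨h7, h8⟩ | ⟨h7, h8⟩
    · exact absurd ⟨h6, h8⟩ h4.2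
    · linarith
    · linarith
    · exact absurd ⟨h6, h8⟩ h4.1
  · right
    simp [dot, crv]
  · left
    exact ⟨t', c02 hK hX hY hst hi0 hi1 h1 h2⟩
  · right
    simp [dot, crv]
  · exfalso
    have p := prof1 hK hY hst h1
    have p' := prof1 hK hY hst' h2
    have h3 : t = t' := gap_eq hX (p := i) (q := i') (by rw [← p.1, ← p'.1])
      (abs_lt.2 ⟨by linarith, by linarith⟩)
    have := p.1
    rw [p'.1, h3] at this
    exact hii (by linarith)
  · exact (c12 hK hX hY hst hi0 hi1 hi0' hi1' hii h1 h2).elim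
  · left
    exact ⟨t, c02 hK hX hY hst' hi0' hi1' h2 h1⟩
  · exact (c12 hK hX hY hst' hi0' hi1' hi0 hi1 hii.symm h2 h1).elim
  · left
    obtain ⟨c, hc0, hc1, h3, h4⟩ := prof2 h1
    obtain ⟨c', hc0', hc1', h3', h4'⟩ := prof2 h2
    have h5 := ci_bd hi0 hi1 hc0 hc1
    have h5' := ci_bd hi0' hi1' hc0' hc1'
    have h6 : t = t' := gap_eq hX (p := c * i) (q := c' * i') (by rw [← h3, ← h3'])
      (abs_lt.2 ⟨by linarith, by linarith⟩)
    subst h6
    have h7 : c * i = c' * i' := by linarith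
    have h8 : c * sgn K Y s t = c' * sgn K Y s' t := by linarith
    have h9 : c = c' := by
      rcases sgn_cases K Y s t with ⟨_, h10⟩ | ⟨_, h10⟩ <;>
        rcases sgn_cases K Y s' t with ⟨_, h11⟩ | ⟨_, h11⟩ <;> rw [h10, h11] at h8
      · exact mul_right_cancel₀ hK.ne' h8
      · nlinarith
      · nlinarith
      · exact mul_right_cancel₀ (neg_ne_zero.2 hK.ne') h8
    rw [← h9] at h7
    have h10 : c = 0 := by
      by_contra h11
      exact hii (mul_left_cancel₀ h11 h7)
    refine ⟨t, Prod.ext ?_ ?_⟩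
    · simp only
      rw [h3, h10]
      ring
    · simp only
      rw [h4, h10]
      ring

/-- a curve starting horizontally and a curve starting vertically -/
theorem cross_xy (hK : 0 < K) (hX : Gap K X) (hY : Gap K Y) (hst : s ≠ t) (hst' : s' ≠ t')
    (hi0 : 0 < i) (hi1 : i < K) (hi0' : 0 < i') (hi1' : i' < K)
    (a b : ℕ) (ha : a ≤ 2) (hb : b ≤ 2) {x : Pt}
    (h1 : x ∈ segment ℝ (crv K X Y s t i a) (crv K X Y s t i (a + 1)))
    (h2 : x.swap ∈ segment ℝ (crv K Y X s' t' i' b) (crv K Y X s' t' i' (b + 1))) :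
    (∃ w, x = (X w, Y w)) ∨
      dot (crv K X Y s t i (a + 1) - crv K X Y s t i a)
        (crv K Y X s' t' i' (b + 1) - crv K Y X s' t' i' b).swap = 0 := by
  have hca : a = 0 ∨ a = 1 ∨ a = 2 := by omega
  have hcb : b = 0 ∨ b = 1 ∨ b = 2 := by omega
  rcases hca with rfl | rfl | rfl <;> rcases hcb with rfl | rfl | rfl
  · right
    simp [dot, crv]
  · exfalso
    have p := prof0 hK hX hst hi0 hi1 h1
    have p' := prof1 hK hX hst' h2
    have h3 : s = t' := gap_eq hY (p := 0) (q := i') (by rw [← p'.1, Prod.fst_swap, p.1]; ring)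
      (abs_lt.2 ⟨by linarith, by linarith⟩)
    have h4 := p'.1
    rw [Prod.fst_swap, p.1, h3] at h4
    linarith
  · left
    have p := prof0 hK hX hst hi0 hi1 h1
    obtain ⟨c, hc0, hc1, h3, h4⟩ := prof2 h2
    rw [Prod.fst_swap] at h3
    rw [Prod.snd_swap] at h4
    have h5 := ci_bd hi0' hi1' hc0 hc1
    have h6 : s = t' := gap_eq hY (p := 0) (q := c * i') (by rw [← h3, p.1]; ring)
      (abs_lt.2 ⟨by linarith, by linarith⟩)
    have h7 : c * i' = 0 := by
      have := p.1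
      rw [h3, h6] at this
      linarith
    have h8 : c = 0 := by
      rcases mul_eq_zero.1 h7 with h9 | h9
      · exact h9
      · exact absurd h9 hi0'.ne'
    refine ⟨t', Prod.ext ?_ ?_⟩
    · simp only
      rw [h4, h8]
      ring
    · simp only
      rw [h3, h8]
      ring
  · exfalso
    have p := prof1 hK hY hst h1
    have p' := prof0 hK hY hst' hi0' hi1' h2
    have h3 : s' = t := gap_eq hX (p := 0) (q := i) (by rw [← p.1, ← Prod.snd_swap, p'.1]; ring)
      (abs_lt.2 ⟨by linarith, by linarith⟩)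
    have h4 := p'.1
    rw [Prod.snd_swap, p.1, h3] at h4
    linarith
  · right
    simp [dot, crv]
  · exfalso
    have p := prof1 hK hY hst h1
    obtain ⟨c, hc0, hc1, h3, h4⟩ := prof2 h2
    rw [Prod.fst_swap] at h3
    rw [Prod.snd_swap] at h4
    have h5 := ci_bd hi0' hi1' hc0 hc1
    have h6 := abs_le.1 (cs_bd hK X s' t' hc0 hc1)
    have h7 : t = t' := gap_eq hX (p := i) (q := c * sgn K X s' t') (by rw [← h4, p.1])
      (abs_lt.2 ⟨by linarith, by linarith⟩)
    rcases p.2 with h9 | h9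
    · rw [h3, h7] at h9
      linarith
    · rw [h3, h7] at h9
      linarith
  · left
    have p := prof0 hK hY hst' hi0' hi1' h2
    obtain ⟨c, hc0, hc1, h3, h4⟩ := prof2 h1
    have h5 := ci_bd hi0 hi1 hc0 hc1
    have p1 := p.1
    rw [Prod.snd_swap] at p1
    have h6 : s' = t := gap_eq hX (p := 0) (q := c * i) (by rw [← h3, p1]; ring)
      (abs_lt.2 ⟨by linarith, by linarith⟩)
    have h7 : c * i = 0 := by
      rw [h3, h6] at p1
      linarith
    have h8 : c = 0 := by
      rcases mul_eq_zero.1 h7 with h9 | h9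
      · exact h9
      · exact absurd h9 hi0.ne'
    refine ⟨t, Prod.ext ?_ ?_⟩
    · simp only
      rw [h3, h8]
      ring
    · simp only
      rw [h4, h8]
      ring
  · exfalso
    have p := prof1 hK hX hst' h2
    rw [Prod.fst_swap, Prod.snd_swap] at p
    obtain ⟨c, hc0, hc1, h3, h4⟩ := prof2 h1
    have h5 := ci_bd hi0 hi1 hc0 hc1
    have h6 := abs_le.1 (cs_bd hK Y s t hc0 hc1)
    have h7 : t' = t := gap_eq hY (p := i') (q := c * sgn K Y s t) (by rw [← h4, p.1])
      (abs_lt.2 ⟨by linarith, by linarith⟩)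
    rcases p.2 with h9 | h9
    · rw [h3, h7] at h9
      linarith
    · rw [h3, h7] at h9
      linarith
  · left
    obtain ⟨c, hc0, hc1, h3, h4⟩ := prof2 h1
    obtain ⟨c', hc0', hc1', h3', h4'⟩ := prof2 h2
    rw [Prod.fst_swap] at h3'
    rw [Prod.snd_swap] at h4'
    have h5 := ci_bd hi0 hi1 hc0 hc1
    have h5' := ci_bd hi0' hi1' hc0' hc1'
    have h6 := abs_le.1 (cs_bd hK Y s t hc0 hc1)
    have h6' := abs_le.1 (cs_bd hK X s' t' hc0' hc1')
    have h7 : t = t' := gap_eq hX (p := c * i) (q := c' * sgn K X s' t') (by rw [← h3, ← h4'])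
      (abs_lt.2 ⟨by linarith, by linarith⟩)
    subst h7
    have h8 : c * i = c' * sgn K X s' t := by linarith
    have h9 : c' * i' = c * sgn K Y s t := by linarith
    have h10 : c' * K ≤ c * i := by
      rcases sgn_cases K X s' t with ⟨_, h11⟩ | ⟨_, h11⟩ <;> rw [h11] at h8
      · linarith
      · nlinarith
    have h12 : c * K ≤ c' * i' := by
      rcases sgn_cases K Y s t with ⟨_, h11⟩ | ⟨_, h11⟩ <;> rw [h11] at h9
      · linarith
      · nlinarith
    have h13 : c = 0 := by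
      by_contra h14
      have h15 : 0 < c := lt_of_le_of_ne hc0 (Ne.symm h14)
      nlinarith [mul_pos h15 hi0, mul_pos h15 hK]
    refine ⟨t, Prod.ext ?_ ?_⟩
    · simp only
      rw [h3, h13]
      ring
    · simp only
      rw [h4, h13]
      ring

end

end Pool.Agent.Lib.RACS
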