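import Mathlib

/-!
# Sparse graphs and tight sets (MP_bf8d95_lc)

Graphs are given by finite sets `T` of unordered pairs.
-/

set_option autoImplicit false

namespace Pool.Agent.Lib.RACS

variable {V : Type} [DecidableEq V]

/-- the number of edges of `T` with both ends in `X` -/
def cnt (T : Finset (Sym2 V)) (X : Finset V) : ℕ := (T ∩ X.sym2).card

/-- every set `X` of at least two vertices spans at most `2 |X| - 3` edges of `T` -/
def Sp (T : Finset (Sym2 V)) : Prop := ∀ X : Finset V, 2 ≤ X.card → cnt T X + 3 ≤ 2 * X.card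

/-- `X` has at least two vertices and spans exactly `2 |X| - 3` edges of `T` -/
def Tight (T : Finset (Sym2 V)) (X : Finset V) : Prop := 2 ≤ X.card ∧ cnt T X + 3 = 2 * X.card

/-- there is an order of the vertices in `S` (given by `ξ`) in which every vertex owns at most one
edge to its right, the one to `r v`, and at most one edge to its left, the one to `l v`, such that
every edge of `T` is owned by one of its ends -/
def Ordered (S : Finset V) (T : Finset (Sym2 V)) : Prop :=
  ∃ (ξ : V → ℚ) (r l : V → V), Set.InjOn ξ (S : Set V) ∧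
    (∀ v ∈ S, r v ∈ S ∧ ξ v ≤ ξ (r v)) ∧ (∀ v ∈ S, l v ∈ S ∧ ξ (l v) ≤ ξ v) ∧
    ∀ u w, s(u, w) ∈ T → r u = w ∨ l u = w ∨ r w = u ∨ l w = u

theorem cnt_mono_left {T T' : Finset (Sym2 V)} (h : T ⊆ T') (X : Finset V) :
    cnt T X ≤ cnt T' X :=
  Finset.card_le_card (Finset.inter_subset_inter_right h)

theorem cnt_mono_right (T : Finset (Sym2 V)) {X Y : Finset V} (h : X ⊆ Y) :
    cnt T X ≤ cnt T Y :=
  Finset.card_le_card (Finset.inter_subset_inter_left (Finset.sym2_mono h))

theorem Sp.mono {T T' : Finset (Sym2 V)} (h : T ⊆ T') (hs : Sp T') : Sp T := fun X hX =>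
  (Nat.add_le_add_right (cnt_mono_left h X) 3).trans (hs X hX)

theorem inter_sym2 (X Y : Finset V) : X.sym2 ∩ Y.sym2 = (X ∩ Y).sym2 := by
  ext e
  simp only [Finset.mem_inter, Finset.mem_sym2_iff]
  constructor
  · rintro ⟨h1, h2⟩ a ha
    exact ⟨h1 a ha, h2 a ha⟩
  · intro h
    exact ⟨fun a ha => (h a ha).1, fun a ha => (h a ha).2⟩

/-- counting edges is supermodular -/
theorem cnt_super (T : Finset (Sym2 V)) (X Y : Finset V) :
    cnt T X + cnt T Y ≤ cnt T (X ∪ Y) + cnt T (X ∩ Y) := by
  unfold cnt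
  have h1 : (T ∩ X.sym2) ∪ (T ∩ Y.sym2) ⊆ T ∩ (X ∪ Y).sym2 := by
    rw [← Finset.inter_union_distrib_left]
    apply Finset.inter_subset_inter_left
    exact Finset.union_subset (Finset.sym2_mono Finset.subset_union_left)
      (Finset.sym2_mono Finset.subset_union_right)
  have h2 : (T ∩ X.sym2) ∩ (T ∩ Y.sym2) = T ∩ (X ∩ Y).sym2 := by
    rw [← inter_sym2]
    ext e
    simp only [Finset.mem_inter]
    tauto
  have h3 := Finset.card_union_add_card_inter (T ∩ X.sym2) (T ∩ Y.sym2)
  rw [h2] at h3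
  have h4 := Finset.card_le_card h1
  omega

/-- two tight sets with two common vertices have a tight union and a tight intersection -/
theorem tight_union_inter {T : Finset (Sym2 V)} (hs : Sp T) {X Y : Finset V} (hX : Tight T X)
    (hY : Tight T Y) (h : 2 ≤ (X ∩ Y).card) : Tight T (X ∪ Y) ∧ Tight T (X ∩ Y) := by
  have h1 := cnt_super T X Y
  have h2 := Finset.card_union_add_card_inter X Y
  have h3 : 2 ≤ (X ∪ Y).card := h.trans (Finset.card_le_card
    (Finset.inter_subset_left.trans Finset.subset_union_left))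
  have h4 := hs (X ∪ Y) h3
  have h5 := hs (X ∩ Y) h
  obtain ⟨h6, h7⟩ := hX
  obtain ⟨h8, h9⟩ := hY
  exact ⟨⟨h3, by omega⟩, ⟨h, by omega⟩⟩

/-- an edge of `T` is a tight set -/
theorem tight_pair {T : Finset (Sym2 V)} (hs : Sp T) {u w : V} (huw : u ≠ w)
    (h : s(u, w) ∈ T) : Tight T {u, w} := by
  have h1 : ({u, w} : Finset V).card = 2 := Finset.card_pair huw
  have h2 := hs {u, w} (by omega)
  have h3 : 1 ≤ cnt T {u, w} := by
    unfold cnt
    apply Finset.card_pos.mpr
    exact ⟨s(u, w), by simp [h]⟩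
  exact ⟨by omega, by omega⟩

end Pool.Agent.Lib.RACS
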