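import Pool.Agent.Lib.RACG.Defs
import Pool.Agent.Lib.RACS.Sparse

/-!
# The curves of the drawing (MP_bf8d95_lc)
-/

set_option autoImplicit false

open Pool.Agent.Lib.RACG

namespace Pool.Agent.Lib.RACS

variable {V : Type}

/-- `K` or `-K` -/
noncomputable def sgn (K : ℝ) (Y : V → ℝ) (s t : V) : ℝ := if Y t < Y s then K else -K

theorem sgn_cases (K : ℝ) (Y : V → ℝ) (s t : V) :
    (Y t < Y s ∧ sgn K Y s t = K) ∨ (Y s ≤ Y t ∧ sgn K Y s t = -K) := by
  unfold sgn
  by_cases h : Y t < Y s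
  · left
    simp [h]
  · right
    simp [h, not_lt.1 h]

/-- the corners of the curve from `s` to `t` which starts horizontally -/
noncomputable def crv (K : ℝ) (X Y : V → ℝ) (s t : V) (i : ℝ) : ℕ → Pt
  | 0 => (X s, Y s)
  | 1 => (X t + i, Y s)
  | 2 => (X t + i, Y t + sgn K Y s t)
  | _ => (X t, Y t)

/-- the coordinates of different vertices differ by at least `4 K` -/
def Gap (K : ℝ) (X : V → ℝ) : Prop := ∀ u v, u = v ∨ X u + 4 * K ≤ X v ∨ X v + 4 * K ≤ X u

theorem mem_segE {x p q : Pt} (hx : x ∈ segment ℝ p q) :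
    ∃ b : ℝ, 0 ≤ b ∧ b ≤ 1 ∧ x.1 = p.1 + b * (q.1 - p.1) ∧ x.2 = p.2 + b * (q.2 - p.2) := by
  obtain ⟨a, b, ha, hb, hab, rfl⟩ := hx
  refine ⟨b, hb, by linarith, ?_, ?_⟩
  · simp only [Prod.fst_add, Prod.smul_fst, smul_eq_mul]
    have : a = 1 - b := by linarith
    rw [this]
    ring
  · simp only [Prod.snd_add, Prod.smul_snd, smul_eq_mul]
    have : a = 1 - b := by linarith
    rw [this]
    ring

section

variable {K : ℝ} {X Y : V → ℝ} {s t : V} {i : ℝ}

/-- the first segment is horizontal -/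
theorem prof0 (hK : 0 < K) (hX : Gap K X) (hst : s ≠ t) (hi : 0 < i) (hi' : i < K) {x : Pt}
    (hx : x ∈ segment ℝ (crv K X Y s t i 0) (crv K X Y s t i 1)) :
    x.2 = Y s ∧ ((X s ≤ x.1 ∧ X s < X t) ∨ (x.1 ≤ X s ∧ X t < X s)) := by
  obtain ⟨b, hb, hb1, h1, h2⟩ := mem_segE hx
  simp only [crv] at h1 h2
  refine ⟨by rw [h2]; ring, ?_⟩
  rcases hX s t with h | h | h
  · exact absurd h hst
  · left
    refine ⟨?_, by linarith⟩
    have : 0 ≤ b * (X t + i - X s) := mul_nonneg hb (by linarith)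
    linarith
  · right
    refine ⟨?_, by linarith⟩
    have : 0 ≤ b * (X s - (X t + i)) := mul_nonneg hb (by linarith)
    nlinarith

/-- the second segment is vertical and stays away from the target -/
theorem prof1 (hK : 0 < K) (hY : Gap K Y) (hst : s ≠ t) {x : Pt}
    (hx : x ∈ segment ℝ (crv K X Y s t i 1) (crv K X Y s t i 2)) :
    x.1 = X t + i ∧ (Y t + K ≤ x.2 ∨ x.2 ≤ Y t - K) := by
  obtain ⟨b, hb, hb1, h1, h2⟩ := mem_segE hx
  simp only [crv] at h1 h2
  refine ⟨by rw [h1]; ring, ?_⟩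
  rcases sgn_cases K Y s t with ⟨h3, h4⟩ | ⟨h3, h4⟩
  · rw [h4] at h2
    left
    rcases hY s t with h | h | h
    · exact absurd h hst
    · linarith
    · nlinarith
  · rw [h4] at h2
    right
    rcases hY s t with h | h | h
    · exact absurd h hst
    · nlinarith
    · linarith

/-- the third segment is slanted and stays near the target -/
theorem prof2 {x : Pt}
    (hx : x ∈ segment ℝ (crv K X Y s t i 2) (crv K X Y s t i 3)) :
    ∃ c : ℝ, 0 ≤ c ∧ c ≤ 1 ∧ x.1 = X t + c * i ∧ x.2 = Y t + c * sgn K Y s t := by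
  obtain ⟨b, hb, hb1, h1, h2⟩ := mem_segE hx
  simp only [crv] at h1 h2
  refine ⟨1 - b, by linarith, by linarith, ?_, ?_⟩
  · rw [h1]; ring
  · rw [h2]; ring

/-- the conditions for a single curve -/
theorem crv_ne (hK : 0 < K) (hX : Gap K X) (hY : Gap K Y) (hst : s ≠ t) (hi : 0 < i) (hi' : i < K) :
    ∀ j ≤ 2, crv K X Y s t i j ≠ crv K X Y s t i (j + 1) := by
  intro j hj h
  interval_cases j
  · simp only [crv, Prod.mk.injEq] at h
    rcases hX s t with h1 | h1 | h1
    · exact hst h1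
    · linarith [h.1]
    · linarith [h.1]
  · simp only [crv, Prod.mk.injEq] at h
    rcases hY s t with h1 | h1 | h1
    · exact hst h1
    · rcases sgn_cases K Y s t with ⟨h3, h4⟩ | ⟨h3, h4⟩ <;> rw [h4] at h <;> linarith [h.2]
    · rcases sgn_cases K Y s t with ⟨h3, h4⟩ | ⟨h3, h4⟩ <;> rw [h4] at h <;> linarith [h.2]
  · simp only [crv, Prod.mk.injEq] at h
    linarith [h.1]

theorem crv_arc (hK : 0 < K) (hX : Gap K X) (hY : Gap K Y) (hst : s ≠ t) (hi : 0 < i)
    (hi' : i < K) (a b : ℕ) (hab : a < b) (hb : b ≤ 2) (x : Pt)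
    (h1 : x ∈ segment ℝ (crv K X Y s t i a) (crv K X Y s t i (a + 1)))
    (h2 : x ∈ segment ℝ (crv K X Y s t i b) (crv K X Y s t i (b + 1))) :
    b = a + 1 ∧ x = crv K X Y s t i b := by
  have hc : (a = 0 ∧ b = 1) ∨ (a = 0 ∧ b = 2) ∨ (a = 1 ∧ b = 2) := by omega
  rcases hc with ⟨rfl, rfl⟩ | ⟨rfl, rfl⟩ | ⟨rfl, rfl⟩
  · have p0 := prof0 hK hX hst hi hi' h1
    have p1 := prof1 hK hY hst h2
    exact ⟨rfl, Prod.ext p1.1 p0.1⟩
  · exfalso
    have p0 := prof0 hK hX hst hi hi' h1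
    obtain ⟨c, hc0, hc1, h3, h4⟩ := prof2 h2
    have h5 := p0.1
    rw [h4] at h5
    rcases sgn_cases K Y s t with ⟨h6, h7⟩ | ⟨h6, h7⟩ <;> rw [h7] at h5 <;>
      rcases hY s t with h | h | h
    · exact hst h
    · nlinarith
    · nlinarith
    · exact hst h
    · nlinarith
    · nlinarith
  · obtain ⟨c, hc0, hc1, h3, h4⟩ := prof2 h2
    have p1 := prof1 hK hY hst h1
    have h5 : c = 1 := by
      have h6 : (c - 1) * i = 0 := by linarith [p1.1]
      rcases mul_eq_zero.1 h6 with h7 | h7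
      · linarith
      · exact absurd h7 hi.ne'
    refine ⟨rfl, Prod.ext ?_ ?_⟩
    · simp only [crv]
      rw [h3, h5]
      ring
    · simp only [crv]
      rw [h4, h5]
      ring

theorem crv_vert (hK : 0 < K) (hX : Gap K X) (hY : Gap K Y) (hst : s ≠ t) (hi : 0 < i)
    (hi' : i < K) (w : V) (hws : w ≠ s) (hwt : w ≠ t) (j : ℕ) (hj : j ≤ 2) :
    (X w, Y w) ∉ segment ℝ (crv K X Y s t i j) (crv K X Y s t i (j + 1)) := by
  intro hx
  have hc : j = 0 ∨ j = 1 ∨ j = 2 := by omega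
  rcases hc with rfl | rfl | rfl
  · have p0 := (prof0 hK hX hst hi hi' hx).1
    simp only at p0
    rcases hY w s with h | h | h
    · exact hws h
    · linarith
    · linarith
  · have p1 := (prof1 hK hY hst hx).1
    simp only at p1
    rcases hX w t with h | h | h
    · exact hwt h
    · linarith
    · linarith
  · obtain ⟨c, hc0, hc1, h3, h4⟩ := prof2 hx
    simp only at h3
    rcases hX w t with h | h | h
    · exact hwt h
    · nlinarith
    · nlinarith

end

end Pool.Agent.Lib.RACS
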