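import Pool.Agent.Lib.RACS.Cross

/-!
# The drawing (MP_bf8d95_lc)
-/

set_option autoImplicit false

open Pool.Agent.Lib.RACG

namespace Pool.Agent.Lib.RACS

variable {V : Type}

/-- the number of vertices before `v` -/
noncomputable def rk [Fintype V] (ξ : V → ℚ) (v : V) : ℕ :=
  (Finset.univ.filter (fun u => ξ u < ξ v)).card

theorem rk_lt [Fintype V] (ξ : V → ℚ) {u v : V} (h : ξ u < ξ v) : rk ξ u < rk ξ v := by
  unfold rk
  apply Finset.card_lt_card
  rw [Finset.ssubset_iff_of_subset]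
  · exact ⟨u, by simp [h], by simp⟩
  · intro w hw
    simp only [Finset.mem_filter, Finset.mem_univ, true_and] at hw ⊢
    exact hw.trans h

/-- the coordinate of a vertex -/
noncomputable def crd [Fintype V] (K : ℝ) (ξ : V → ℚ) (v : V) : ℝ := 4 * K * (rk ξ v : ℝ)

theorem crd_lt [Fintype V] {K : ℝ} (hK : 0 < K) (ξ : V → ℚ) {u v : V} (h : ξ u < ξ v) :
    crd K ξ u + 4 * K ≤ crd K ξ v := by
  have h1 : (rk ξ u : ℝ) + 1 ≤ (rk ξ v : ℝ) := by exact_mod_cast rk_lt ξ h
  unfold crd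
  nlinarith

theorem crd_gap [Fintype V] {K : ℝ} (hK : 0 < K) {ξ : V → ℚ} (hξ : Function.Injective ξ) :
    Gap K (crd K ξ) := by
  intro u v
  rcases lt_trichotomy (ξ u) (ξ v) with h | h | h
  · exact Or.inr (Or.inl (crd_lt hK ξ h))
  · exact Or.inl (hξ h)
  · exact Or.inr (Or.inr (crd_lt hK ξ h))

theorem crd_lt_iff [Fintype V] {K : ℝ} (hK : 0 < K) {ξ : V → ℚ} (hξ : Function.Injective ξ)
    {u v : V} : crd K ξ u < crd K ξ v ↔ ξ u < ξ v := by
  constructor
  · intro h
    rcases lt_trichotomy (ξ u) (ξ v) with h1 | h1 | h1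
    · exact h1
    · rw [hξ h1] at h
      exact absurd h (lt_irrefl _)
    · have := crd_lt hK ξ h1
      linarith
  · intro h
    have := crd_lt hK ξ h
    linarith

/-- M4. See part (A) of the proof. -/
theorem draw [DecidableEq V] [Fintype V] (G : SimpleGraph V) (T₁ T₂ : Finset (Sym2 V))
    (h : ∀ e ∈ G.edgeSet, e ∈ T₁ ∪ T₂) (o₁ : Ordered Finset.univ T₁)
    (o₂ : Ordered Finset.univ T₂) : ∃ D : Dr V, IsRAC 2 G D := by
  classical
  obtain ⟨ξ, r₁, l₁, hξ, hr₁, hl₁, ho₁⟩ := o₁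
  obtain ⟨η, r₂, l₂, hη, hr₂, hl₂, ho₂⟩ := o₂
  have hξ' : Function.Injective ξ := fun u v huv => hξ (by simp) (by simp) huv
  have hη' : Function.Injective η := fun u v huv => hη (by simp) (by simp) huv
  -- the data of the edges
  have hdata : ∀ e : Sym2 V, ∃ (k : Bool) (s t : V), e ∈ G.edgeSet → e = s(s, t) ∧ s ≠ t ∧
      (k = true → t = r₁ s ∨ t = l₁ s) ∧ (k = false → t = r₂ s ∨ t = l₂ s) := by
    intro e
    induction e with
    | _ u w =>
      by_cases he : s(u, w) ∈ G.edgeSet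
      · have huw : u ≠ w := G.ne_of_adj (by simpa using he)
        rcases Finset.mem_union.1 (h _ he) with h1 | h1
        · rcases ho₁ u w h1 with h2 | h2 | h2 | h2
          · exact ⟨true, u, w, fun _ => ⟨rfl, huw, fun _ => Or.inl h2.symm, by simp⟩⟩
          · exact ⟨true, u, w, fun _ => ⟨rfl, huw, fun _ => Or.inr h2.symm, by simp⟩⟩
          · exact ⟨true, w, u, fun _ => ⟨Sym2.eq_swap, huw.symm, fun _ => Or.inl h2.symm, by simp⟩⟩
          · exact ⟨true, w, u, fun _ => ⟨Sym2.eq_swap, huw.symm, fun _ => Or.inr h2.symm, by simp⟩⟩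
        · rcases ho₂ u w h1 with h2 | h2 | h2 | h2
          · exact ⟨false, u, w, fun _ => ⟨rfl, huw, by simp, fun _ => Or.inl h2.symm⟩⟩
          · exact ⟨false, u, w, fun _ => ⟨rfl, huw, by simp, fun _ => Or.inr h2.symm⟩⟩
          · exact ⟨false, w, u, fun _ => ⟨Sym2.eq_swap, huw.symm, by simp, fun _ => Or.inl h2.symm⟩⟩
          · exact ⟨false, w, u, fun _ => ⟨Sym2.eq_swap, huw.symm, by simp, fun _ => Or.inr h2.symm⟩⟩
      · exact ⟨true, u, u, fun h' => absurd h' he⟩
  choose kd sr tg hdt using hdata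
  -- the numbers of the edges
  set K : ℝ := (Fintype.card (Sym2 V) : ℝ) + 1 with hKdef
  have hK : 0 < K := by positivity
  let ι : Sym2 V → ℝ := fun e => ((Fintype.equivFin (Sym2 V) e : ℕ) : ℝ) + 1
  have hι0 : ∀ e, 0 < ι e := fun e => by positivity
  have hι1 : ∀ e, ι e < K := by
    intro e
    have h1 : (Fintype.equivFin (Sym2 V) e : ℕ) < Fintype.card (Sym2 V) := Fin.is_lt _
    have h2 : ((Fintype.equivFin (Sym2 V) e : ℕ) : ℝ) < (Fintype.card (Sym2 V) : ℝ) := by
      exact_mod_cast h1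
    simp only [ι, hKdef]
    linarith
  have hιi : ∀ e f, e ≠ f → ι e ≠ ι f := by
    intro e f hef h1
    apply hef
    simp only [ι] at h1
    have h2 : ((Fintype.equivFin (Sym2 V) e : ℕ) : ℝ) = ((Fintype.equivFin (Sym2 V) f : ℕ) : ℝ) := by
      linarith
    have h3 : (Fintype.equivFin (Sym2 V) e : ℕ) = (Fintype.equivFin (Sym2 V) f : ℕ) := by
      exact_mod_cast h2
    exact (Fintype.equivFin (Sym2 V)).injective (Fin.ext h3)
  set X : V → ℝ := crd K ξ with hXdef
  set Y : V → ℝ := crd K η with hYdef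
  have hX : Gap K X := crd_gap hK hξ'
  have hY : Gap K Y := crd_gap hK hη'
  -- the sides of the owned edges
  have side1 : ∀ e ∈ G.edgeSet, ∀ f ∈ G.edgeSet, e ≠ f → kd e = true → kd f = true →
      sr e = sr f → ¬ (X (tg e) < X (sr e) ∧ X (tg f) < X (sr e)) ∧
        ¬ (X (sr e) < X (tg e) ∧ X (sr e) < X (tg f)) := by
    intro e he f hf hef hke hkf hs
    obtain ⟨he1, he2, he3, he4⟩ := hdt e he
    obtain ⟨hf1, hf2, hf3, hf4⟩ := hdt f hf
    constructor
    · rintro ⟨h1, h2⟩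
      rw [hXdef, crd_lt_iff hK hξ'] at h1 h2
      have h3 : tg e = l₁ (sr e) := by
        rcases he3 hke with h4 | h4
        · rw [h4] at h1
          exact absurd h1 (not_lt.2 (hr₁ (sr e) (by simp)).2)
        · exact h4
      have h5 : tg f = l₁ (sr f) := by
        rcases hf3 hkf with h4 | h4
        · rw [h4, hs] at h2
          exact absurd h2 (not_lt.2 (hr₁ (sr f) (by simp)).2)
        · exact h4
      apply hef
      rw [he1, hf1, h3, h5, hs]
    · rintro ⟨h1, h2⟩
      rw [hXdef, crd_lt_iff hK hξ'] at h1 h2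
      have h3 : tg e = r₁ (sr e) := by
        rcases he3 hke with h4 | h4
        · exact h4
        · rw [h4] at h1
          exact absurd h1 (not_lt.2 (hl₁ (sr e) (by simp)).2)
      have h5 : tg f = r₁ (sr f) := by
        rcases hf3 hkf with h4 | h4
        · exact h4
        · rw [h4, hs] at h2
          exact absurd h2 (not_lt.2 (hl₁ (sr f) (by simp)).2)
      apply hef
      rw [he1, hf1, h3, h5, hs]
  have side2 : ∀ e ∈ G.edgeSet, ∀ f ∈ G.edgeSet, e ≠ f → kd e = false → kd f = false →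
      sr e = sr f → ¬ (Y (tg e) < Y (sr e) ∧ Y (tg f) < Y (sr e)) ∧
        ¬ (Y (sr e) < Y (tg e) ∧ Y (sr e) < Y (tg f)) := by
    intro e he f hf hef hke hkf hs
    obtain ⟨he1, he2, he3, he4⟩ := hdt e he
    obtain ⟨hf1, hf2, hf3, hf4⟩ := hdt f hf
    constructor
    · rintro ⟨h1, h2⟩
      rw [hYdef, crd_lt_iff hK hη'] at h1 h2
      have h3 : tg e = l₂ (sr e) := by
        rcases he4 hke with h4 | h4
        · rw [h4] at h1
          exact absurd h1 (not_lt.2 (hr₂ (sr e) (by simp)).2)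
        · exact h4
      have h5 : tg f = l₂ (sr f) := by
        rcases hf4 hkf with h4 | h4
        · rw [h4, hs] at h2
          exact absurd h2 (not_lt.2 (hr₂ (sr f) (by simp)).2)
        · exact h4
      apply hef
      rw [he1, hf1, h3, h5, hs]
    · rintro ⟨h1, h2⟩
      rw [hYdef, crd_lt_iff hK hη'] at h1 h2
      have h3 : tg e = r₂ (sr e) := by
        rcases he4 hke with h4 | h4
        · exact h4
        · rw [h4] at h1
          exact absurd h1 (not_lt.2 (hl₂ (sr e) (by simp)).2)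
      have h5 : tg f = r₂ (sr f) := by
        rcases hf4 hkf with h4 | h4
        · exact h4
        · rw [h4, hs] at h2
          exact absurd h2 (not_lt.2 (hl₂ (sr f) (by simp)).2)
      apply hef
      rw [he1, hf1, h3, h5, hs]
  -- the drawing
  let C : Sym2 V → ℕ → Pt := fun e j =>
    if kd e = true then crv K X Y (sr e) (tg e) (ι e) j
    else (crv K Y X (sr e) (tg e) (ι e) j).swap
  have hCt : ∀ e, kd e = true → ∀ j, C e j = crv K X Y (sr e) (tg e) (ι e) j := by
    intro e he j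
    simp only [C, he, if_true]
  have hCf : ∀ e, kd e = false → ∀ j, C e j = (crv K Y X (sr e) (tg e) (ι e) j).swap := by
    intro e he j
    simp [C, he]
  have hswap : ∀ (p q x : Pt), x ∈ segment ℝ p.swap q.swap → x.swap ∈ segment ℝ p q := by
    rintro p q x ⟨a, b, ha, hb, hab, rfl⟩
    refine ⟨a, b, ha, hb, hab, ?_⟩
    ext <;> simp
  refine ⟨⟨fun v => (X v, Y v), fun _ => 2, C⟩, ?_⟩
  refine ⟨?_, ?_, ?_, ?_, ?_, ?_, ?_⟩
  · intro u v huv
    simp only [Prod.mk.injEq] at huv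
    rcases hX u v with h1 | h1 | h1
    · exact h1
    · linarith [huv.1]
    · linarith [huv.1]
  · intro e _
    exact le_refl 2
  · intro e he
    obtain ⟨he1, he2, he3, he4⟩ := hdt e he
    refine ⟨sr e, tg e, he1, ?_, ?_⟩
    · show C e 0 = _
      cases hk : kd e
      · rw [hCf e hk]; simp [crv]
      · rw [hCt e hk]; simp [crv]
    · show C e 3 = _
      cases hk : kd e
      · rw [hCf e hk]; simp [crv]
      · rw [hCt e hk]; simp [crv]
  · intro e he j hj
    obtain ⟨he1, he2, he3, he4⟩ := hdt e he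
    show C e j ≠ C e (j + 1)
    have hj' : j ≤ 2 := hj
    cases hk : kd e
    · rw [hCf e hk, hCf e hk]
      intro h1
      exact crv_ne hK hY hX he2 (hι0 e) (hι1 e) j hj' (Prod.swap_injective h1)
    · rw [hCt e hk, hCt e hk]
      exact crv_ne hK hX hY he2 (hι0 e) (hι1 e) j hj'
  · intro e he a b hab hb x h1 h2
    obtain ⟨he1, he2, he3, he4⟩ := hdt e he
    have hb' : b ≤ 2 := hb
    change x ∈ segment ℝ (C e a) (C e (a + 1)) at h1
    change x ∈ segment ℝ (C e b) (C e (b + 1)) at h2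
    show b = a + 1 ∧ x = C e b
    cases hk : kd e
    · rw [hCf e hk, hCf e hk] at h1 h2
      obtain ⟨h3, h4⟩ := crv_arc hK hY hX he2 (hι0 e) (hι1 e) a b hab hb' x.swap
        (hswap _ _ _ h1) (hswap _ _ _ h2)
      refine ⟨h3, ?_⟩
      rw [hCf e hk, ← h4, Prod.swap_swap]
    · rw [hCt e hk, hCt e hk] at h1 h2
      rw [hCt e hk]
      exact crv_arc hK hX hY he2 (hι0 e) (hι1 e) a b hab hb' x h1 h2
  · intro e he w hw j hj h1
    obtain ⟨he1, he2, he3, he4⟩ := hdt e he
    have hj' : j ≤ 2 := hj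
    change (X w, Y w) ∈ segment ℝ (C e j) (C e (j + 1)) at h1
    have hw1 : w ≠ sr e := by
      intro h5
      apply hw
      rw [h5]
      exact (congrArg (fun z => sr e ∈ z) he1).mpr (Sym2.mem_mk_left _ _)
    have hw2 : w ≠ tg e := by
      intro h5
      apply hw
      rw [h5]
      exact (congrArg (fun z => tg e ∈ z) he1).mpr (Sym2.mem_mk_right _ _)
    cases hk : kd e
    · rw [hCf e hk, hCf e hk] at h1
      exact crv_vert hK hY hX he2 (hι0 e) (hι1 e) w hw1 hw2 j hj' (hswap _ _ _ h1)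
    · rw [hCt e hk, hCt e hk] at h1
      exact crv_vert hK hX hY he2 (hι0 e) (hι1 e) w hw1 hw2 j hj' h1
  · intro e he f hf hef a ha b hb x h1 h2
    obtain ⟨he1, he2, he3, he4⟩ := hdt e he
    obtain ⟨hf1, hf2, hf3, hf4⟩ := hdt f hf
    have ha' : a ≤ 2 := ha
    have hb' : b ≤ 2 := hb
    change x ∈ segment ℝ (C e a) (C e (a + 1)) at h1
    change x ∈ segment ℝ (C f b) (C f (b + 1)) at h2
    show (∃ w, x = (X w, Y w)) ∨ dot (C e (a + 1) - C e a) (C f (b + 1) - C f b) = 0
    cases hk : kd e <;> cases hk' : kd f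
    · rw [hCf e hk, hCf e hk] at h1 ⊢
      rw [hCf f hk', hCf f hk'] at h2 ⊢
      rcases cross_xx hK hY hX he2 hf2 (hι0 e) (hι1 e) (hι0 f) (hι1 f) (hιi e f hef)
        (side2 e he f hf hef hk hk') a b ha' hb' (hswap _ _ _ h1) (hswap _ _ _ h2) with
        ⟨w, hw⟩ | h3
      · left
        exact ⟨w, by rw [← Prod.swap_swap x, hw]; rfl⟩
      · right
        simp only [dot, Prod.fst_sub, Prod.snd_sub, Prod.fst_swap, Prod.snd_swap] at h3 ⊢
        linarith
    · rw [hCf e hk, hCf e hk] at h1 ⊢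
      rw [hCt f hk', hCt f hk'] at h2 ⊢
      rcases cross_xy hK hX hY hf2 he2 (hι0 f) (hι1 f) (hι0 e) (hι1 e)
        b a hb' ha' h2 (hswap _ _ _ h1) with ⟨w, hw⟩ | h3
      · left
        exact ⟨w, hw⟩
      · right
        simp only [dot, Prod.fst_sub, Prod.snd_sub, Prod.fst_swap, Prod.snd_swap] at h3 ⊢
        linarith
    · rw [hCt e hk, hCt e hk] at h1 ⊢
      rw [hCf f hk', hCf f hk'] at h2 ⊢
      rcases cross_xy hK hX hY he2 hf2 (hι0 e) (hι1 e) (hι0 f) (hι1 f)
        a b ha' hb' h1 (hswap _ _ _ h2) with ⟨w, hw⟩ | h3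
      · left
        exact ⟨w, hw⟩
      · right
        simp only [dot, Prod.fst_sub, Prod.snd_sub, Prod.fst_swap, Prod.snd_swap] at h3 ⊢
        linarith
    · rw [hCt e hk, hCt e hk] at h1 ⊢
      rw [hCt f hk', hCt f hk'] at h2 ⊢
      exact cross_xx hK hX hY he2 hf2 (hι0 e) (hι1 e) (hι0 f) (hι1 f) (hιi e f hef)
        (side1 e he f hf hef hk hk') a b ha' hb' h1 h2

end Pool.Agent.Lib.RACS
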