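import Pool.Agent.Lib.RACS.Sparse

/-!
# Inserting a vertex into an order (MP_bf8d95_lc)
-/

set_option autoImplicit false

namespace Pool.Agent.Lib.RACS

variable {V : Type} [DecidableEq V]

/-- the order `ξ` with the pointers `r`, `l` orders the edges `T` on `S` -/
private def Ord (ξ : V → ℚ) (r l : V → V) (S : Finset V) (T : Finset (Sym2 V)) : Prop :=
  Set.InjOn ξ (S : Set V) ∧
    (∀ v ∈ S, r v ∈ S ∧ ξ v ≤ ξ (r v)) ∧ (∀ v ∈ S, l v ∈ S ∧ ξ (l v) ≤ ξ v) ∧
    ∀ u w, s(u, w) ∈ T → r u = w ∨ l u = w ∨ r w = u ∨ l w = u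

omit [DecidableEq V] in
private theorem Ord.mirror {ξ : V → ℚ} {r l : V → V} {S : Finset V} {T : Finset (Sym2 V)}
    (h : Ord ξ r l S T) : Ord (fun v => - ξ v) l r S T := by
  obtain ⟨h1, h2, h3, h4⟩ := h
  refine ⟨fun u hu w hw huw => h1 hu hw (neg_injective huw),
    fun v hv => ⟨(h3 v hv).1, neg_le_neg (h3 v hv).2⟩,
    fun v hv => ⟨(h2 v hv).1, neg_le_neg (h2 v hv).2⟩, fun u w huw => ?_⟩
  rcases h4 u w huw with h | h | h | h <;> tauto

/-- insertion of a vertex -/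
private theorem ins {S : Finset V} {T : Finset (Sym2 V)} {ξ : V → ℚ} {r l : V → V} {v : V}
    {q : ℚ} {pl pr : V} (hv : v ∉ S) (hinj : Set.InjOn ξ (S : Set V)) (hq : ∀ u ∈ S, ξ u ≠ q)
    (hr : ∀ u ∈ S, (r u ∈ S ∧ ξ u ≤ ξ (r u)) ∨ (r u = v ∧ ξ u ≤ q))
    (hl : ∀ u ∈ S, l u ∈ S ∧ ξ (l u) ≤ ξ u)
    (hpl : pl = v ∨ (pl ∈ S ∧ ξ pl ≤ q)) (hpr : pr = v ∨ (pr ∈ S ∧ q ≤ ξ pr))
    (hT : ∀ u w, s(u, w) ∈ T → (u ≠ v ∧ w ≠ v ∧ (r u = w ∨ l u = w ∨ r w = u ∨ l w = u)) ∨
      (u = v ∧ w ≠ v ∧ (w = pl ∨ w = pr ∨ r w = v)) ∨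
      (w = v ∧ u ≠ v ∧ (u = pl ∨ u = pr ∨ r u = v))) :
    Ordered (insert v S) T := by
  have hne : ∀ u ∈ S, u ≠ v := fun u hu h => hv (h ▸ hu)
  refine ⟨Function.update ξ v q, Function.update r v pr, Function.update l v pl, ?_, ?_, ?_, ?_⟩
  · intro u hu w hw huw
    rw [Finset.mem_coe, Finset.mem_insert] at hu hw
    rcases hu with rfl | hu <;> rcases hw with rfl | hw
    · rfl
    · rw [Function.update_self, Function.update_of_ne (hne w hw)] at huw
      exact absurd huw.symm (hq w hw)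
    · rw [Function.update_self, Function.update_of_ne (hne u hu)] at huw
      exact absurd huw (hq u hu)
    · rw [Function.update_of_ne (hne u hu), Function.update_of_ne (hne w hw)] at huw
      exact hinj hu hw huw
  · intro u hu
    rw [Finset.mem_insert] at hu
    rcases hu with rfl | hu
    · rw [Function.update_self, Function.update_self]
      rcases hpr with rfl | ⟨h1, h2⟩
      · exact ⟨Finset.mem_insert_self _ _, by rw [Function.update_self]⟩
      · exact ⟨Finset.mem_insert_of_mem h1, by rwa [Function.update_of_ne (hne pr h1)]⟩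
    · rw [Function.update_of_ne (hne u hu), Function.update_of_ne (hne u hu)]
      rcases hr u hu with ⟨h1, h2⟩ | ⟨h1, h2⟩
      · exact ⟨Finset.mem_insert_of_mem h1, by rwa [Function.update_of_ne (hne _ h1)]⟩
      · rw [h1]
        exact ⟨Finset.mem_insert_self _ _, by rwa [Function.update_self]⟩
  · intro u hu
    rw [Finset.mem_insert] at hu
    rcases hu with rfl | hu
    · rw [Function.update_self, Function.update_self]
      rcases hpl with rfl | ⟨h1, h2⟩
      · exact ⟨Finset.mem_insert_self _ _, by rw [Function.update_self]⟩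
      · exact ⟨Finset.mem_insert_of_mem h1, by rwa [Function.update_of_ne (hne pl h1)]⟩
    · rw [Function.update_of_ne (hne u hu), Function.update_of_ne (hne u hu)]
      obtain ⟨h1, h2⟩ := hl u hu
      exact ⟨Finset.mem_insert_of_mem h1, by rwa [Function.update_of_ne (hne _ h1)]⟩
  · intro u w huw
    rcases hT u w huw with ⟨h1, h2, h3⟩ | ⟨rfl, h2, h3⟩ | ⟨rfl, h2, h3⟩
    · rw [Function.update_of_ne h1, Function.update_of_ne h1, Function.update_of_ne h2,
        Function.update_of_ne h2]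
      exact h3
    · rw [Function.update_self, Function.update_self, Function.update_of_ne h2]
      rcases h3 with h3 | h3 | h3
      · exact Or.inr (Or.inl h3.symm)
      · exact Or.inl h3.symm
      · exact Or.inr (Or.inr (Or.inl h3))
    · rw [Function.update_self, Function.update_self, Function.update_of_ne h2]
      rcases h3 with h3 | h3 | h3
      · exact Or.inr (Or.inr (Or.inr h3.symm))
      · exact Or.inr (Or.inr (Or.inl h3.symm))
      · exact Or.inl h3

omit [DecidableEq V] in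
/-- a rational number in an interval, which is not a value of `ξ` on `S` -/
private theorem exists_rat (S : Finset V) (ξ : V → ℚ) {x y : ℚ} (h : x < y) :
    ∃ q, x < q ∧ q < y ∧ ∀ u ∈ S, ξ u ≠ q := by
  obtain ⟨q, hq, hq'⟩ := (Set.Ioo_infinite h).exists_notMem_finset (S.image ξ)
  refine ⟨q, hq.1, hq.2, fun u hu huq => hq' ?_⟩
  rw [← huq]
  exact Finset.mem_image_of_mem ξ hu

/-- M2c0. A vertex without edges. -/
theorem insert0 {S : Finset V} {T : Finset (Sym2 V)} {v : V}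
    (hinc : ∀ e ∈ T, v ∉ e) (ho : Ordered (S.erase v) T) : Ordered S T := by
  by_cases hv : v ∈ S
  · obtain ⟨ξ, r, l, h1, h2, h3, h4⟩ := ho
    obtain ⟨q, -, -, hq⟩ := exists_rat (S.erase v) ξ (x := 0) (y := 1) one_pos
    have h := ins (T := T) (v := v) (q := q) (pl := v) (pr := v) (Finset.notMem_erase v S) h1 hq
      (fun u hu => Or.inl (h2 u hu)) h3 (Or.inl rfl) (Or.inl rfl) (fun u w huw => by
        have h5 := hinc _ huw
        rw [Sym2.mem_iff, not_or] at h5
        exact Or.inl ⟨fun h => h5.1 h.symm, fun h => h5.2 h.symm, h4 u w huw⟩)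
    rwa [Finset.insert_erase hv] at h
  · rwa [Finset.erase_eq_of_notMem hv] at ho

/-- two neighbours, `a` is before `b` -/
private theorem insert2' {S : Finset V} {T : Finset (Sym2 V)} {v a b : V} (hv : v ∉ S)
    (ha : a ∈ S) (hb : b ∈ S) (hinc : ∀ e ∈ T, v ∈ e → e = s(v, a) ∨ e = s(v, b))
    {ξ : V → ℚ} {r l : V → V} (ho : Ord ξ r l S (T.filter (fun e => v ∉ e))) (hab : ξ a < ξ b) :
    Ordered (insert v S) T := by
  have hva : a ≠ v := fun h => hv (h ▸ ha)
  have hvb : b ≠ v := fun h => hv (h ▸ hb)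
  obtain ⟨h1, h2, h3, h4⟩ := ho
  obtain ⟨q, hq1, hq2, hq⟩ := exists_rat S ξ hab
  refine ins (T := T) (q := q) (pl := a) (pr := b) hv h1 hq
    (fun u hu => Or.inl (h2 u hu)) h3 (Or.inr ⟨ha, hq1.le⟩) (Or.inr ⟨hb, hq2.le⟩)
    (fun u w huw => ?_)
  by_cases hm : v ∈ s(u, w)
  · rcases hinc _ huw hm with h | h
    · rcases Sym2.eq_iff.1 h with ⟨h5, h6⟩ | ⟨h5, h6⟩
      · exact Or.inr (Or.inl ⟨h5, h6 ▸ hva, Or.inl h6⟩)
      · exact Or.inr (Or.inr ⟨h6, h5 ▸ hva, Or.inl h5⟩)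
    · rcases Sym2.eq_iff.1 h with ⟨h5, h6⟩ | ⟨h5, h6⟩
      · exact Or.inr (Or.inl ⟨h5, h6 ▸ hvb, Or.inr (Or.inl h6)⟩)
      · exact Or.inr (Or.inr ⟨h6, h5 ▸ hvb, Or.inr (Or.inl h5)⟩)
  · have h5 := hm
    rw [Sym2.mem_iff, not_or] at h5
    exact Or.inl ⟨fun h => h5.1 h.symm, fun h => h5.2 h.symm,
      h4 u w (Finset.mem_filter.2 ⟨huw, hm⟩)⟩

/-- M2c. A vertex with at most two neighbours `a, b` (possibly `a = b`): put `v` just after the
smaller one; `v` owns its edges. -/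
theorem insert2 {S : Finset V} {T : Finset (Sym2 V)} {v a b : V} (hv : v ∈ S)
    (ha : a ∈ S) (hb : b ∈ S) (hva : v ≠ a) (hvb : v ≠ b)
    (hinc : ∀ e ∈ T, v ∈ e → e = s(v, a) ∨ e = s(v, b))
    (ho : Ordered (S.erase v) (T.filter (fun e => v ∉ e))) : Ordered S T := by
  have ha' : a ∈ S.erase v := Finset.mem_erase.2 ⟨hva.symm, ha⟩
  have hb' : b ∈ S.erase v := Finset.mem_erase.2 ⟨hvb.symm, hb⟩
  have hn := Finset.notMem_erase v S
  obtain ⟨ξ, r, l, ho'⟩ := ho
  have ho : Ord ξ r l (S.erase v) (T.filter (fun e => v ∉ e)) := ho'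
  rw [← Finset.insert_erase hv]
  rcases lt_trichotomy (ξ a) (ξ b) with h | h | h
  · exact insert2' hn ha' hb' hinc ho h
  · have hab : a = b := ho.1 ha' hb' h
    subst hab
    obtain ⟨h1, h2, h3, h4⟩ := ho
    obtain ⟨q, hq1, -, hq⟩ := exists_rat (S.erase v) ξ (lt_add_one (ξ a))
    refine ins (T := T) (q := q) (pl := a) (pr := v) hn h1 hq
      (fun u hu => Or.inl (h2 u hu)) h3 (Or.inr ⟨ha', hq1.le⟩) (Or.inl rfl) (fun u w huw => ?_)
    by_cases hm : v ∈ s(u, w)
    · have h := (hinc _ huw hm).elim id id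
      rcases Sym2.eq_iff.1 h with ⟨h5, h6⟩ | ⟨h5, h6⟩
      · exact Or.inr (Or.inl ⟨h5, h6 ▸ hva.symm, Or.inl h6⟩)
      · exact Or.inr (Or.inr ⟨h6, h5 ▸ hva.symm, Or.inl h5⟩)
    · have h5 := hm
      rw [Sym2.mem_iff, not_or] at h5
      exact Or.inl ⟨fun h => h5.1 h.symm, fun h => h5.2 h.symm,
        h4 u w (Finset.mem_filter.2 ⟨huw, hm⟩)⟩
  · exact insert2' hn hb' ha' (fun e he hm => (hinc e he hm).symm) ho h

/-- three neighbours, the edge `ab` is the right edge of `a`; the case of a position `q` between the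
neighbours `x` and `y`, which are `b` and `c` in some order -/
private theorem insert3'' {S : Finset V} {T : Finset (Sym2 V)} {v a b x y : V} (hv : v ∉ S)
    (ha : a ∈ S) (hx : x ∈ S) (hy : y ∈ S) (hn : s(a, b) ∉ T)
    (hinc : ∀ e ∈ T, v ∈ e → e = s(v, a) ∨ e = s(v, x) ∨ e = s(v, y))
    {ξ : V → ℚ} {r l : V → V} (ho : Ord ξ r l S (insert s(a, b) (T.filter (fun e => v ∉ e))))
    (hr : r a = b) {z : ℚ} (haz : ξ a ≤ z) (hxz : ξ x ≤ z) (hzy : z < ξ y) :
    Ordered (insert v S) T := by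
  have hva : a ≠ v := fun h => hv (h ▸ ha)
  have hvx : x ≠ v := fun h => hv (h ▸ hx)
  have hvy : y ≠ v := fun h => hv (h ▸ hy)
  obtain ⟨h1, h2, h3, h4⟩ := ho
  obtain ⟨q, hq1, hq2, hq⟩ := exists_rat S ξ hzy
  refine ins (T := T) (q := q) (pl := x) (pr := y) (r := Function.update r a v) hv h1 hq
    (fun u hu => ?_) h3 (Or.inr ⟨hx, hxz.trans hq1.le⟩) (Or.inr ⟨hy, hq2.le⟩)
    (fun u w huw => ?_)
  · by_cases hua : u = a
    · subst hua
      rw [Function.update_self]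
      exact Or.inr ⟨rfl, haz.trans hq1.le⟩
    · rw [Function.update_of_ne hua]
      exact Or.inl (h2 u hu)
  by_cases hm : v ∈ s(u, w)
  · rcases hinc _ huw hm with h | h | h
    · rcases Sym2.eq_iff.1 h with ⟨h5, h6⟩ | ⟨h5, h6⟩
      · refine Or.inr (Or.inl ⟨h5, h6 ▸ hva, Or.inr (Or.inr ?_)⟩)
        rw [h6, Function.update_self]
      · refine Or.inr (Or.inr ⟨h6, h5 ▸ hva, Or.inr (Or.inr ?_)⟩)
        rw [h5, Function.update_self]
    · rcases Sym2.eq_iff.1 h with ⟨h5, h6⟩ | ⟨h5, h6⟩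
      · exact Or.inr (Or.inl ⟨h5, h6 ▸ hvx, Or.inl h6⟩)
      · exact Or.inr (Or.inr ⟨h6, h5 ▸ hvx, Or.inl h5⟩)
    · rcases Sym2.eq_iff.1 h with ⟨h5, h6⟩ | ⟨h5, h6⟩
      · exact Or.inr (Or.inl ⟨h5, h6 ▸ hvy, Or.inr (Or.inl h6)⟩)
      · exact Or.inr (Or.inr ⟨h6, h5 ▸ hvy, Or.inr (Or.inl h5)⟩)
  · have h5 := hm
    rw [Sym2.mem_iff, not_or] at h5
    refine Or.inl ⟨fun h => h5.1 h.symm, fun h => h5.2 h.symm, ?_⟩
    rcases h4 u w (Finset.mem_insert_of_mem (Finset.mem_filter.2 ⟨huw, hm⟩)) with h | h | h | h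
    · by_cases hua : u = a
      · exfalso
        apply hn
        rw [← hr, ← hua, h]
        exact huw
      · left
        rw [Function.update_of_ne hua]
        exact h
    · exact Or.inr (Or.inl h)
    · by_cases hwa : w = a
      · exfalso
        apply hn
        rw [← hr, ← hwa, h, Sym2.eq_swap]
        exact huw
      · right
        right
        left
        rw [Function.update_of_ne hwa]
        exact h
    · exact Or.inr (Or.inr (Or.inr h))

/-- three neighbours, the edge `ab` is the right edge of `a` -/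
private theorem insert3' {S : Finset V} {T : Finset (Sym2 V)} {v a b c : V} (hv : v ∉ S)
    (ha : a ∈ S) (hb : b ∈ S) (hc : c ∈ S) (hab : a ≠ b) (hbc : b ≠ c) (hn : s(a, b) ∉ T)
    (hinc : ∀ e ∈ T, v ∈ e → e = s(v, a) ∨ e = s(v, b) ∨ e = s(v, c))
    {ξ : V → ℚ} {r l : V → V} (ho : Ord ξ r l S (insert s(a, b) (T.filter (fun e => v ∉ e))))
    (hr : r a = b) : Ordered (insert v S) T := by
  have h1 : ξ a < ξ b := by
    refine lt_of_le_of_ne ?_ (fun h => hab (ho.1 ha hb h))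
    have := (ho.2.1 a ha).2
    rwa [hr] at this
  rcases lt_or_gt_of_ne (fun h => hbc (ho.1 hb hc h) : ξ b ≠ ξ c) with h | h
  · exact insert3'' hv ha hb hc hn hinc ho hr h1.le le_rfl h
  · exact insert3'' (z := max (ξ a) (ξ c)) hv ha hc hb hn
      (fun e he hm => (hinc e he hm).imp id Or.symm) ho hr (le_max_left _ _) (le_max_right _ _)
      (max_lt h1 h)

/-- M2b. A vertex with the three neighbours `a, b, c`: let the edge `ab` be owned by `a` and `a < b`
(the other cases by exchanging `a` and `b` and by reversing the order). If `c < b` put `v` just before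
`b`, otherwise just after `b`. The right edge of `a` is now `av`, the vertex `v` owns `bv`, `cv`. -/
theorem insert3 {S : Finset V} {T : Finset (Sym2 V)} {v a b c : V} (hv : v ∈ S)
    (ha : a ∈ S) (hb : b ∈ S) (hc : c ∈ S) (hva : v ≠ a) (hvb : v ≠ b) (hvc : v ≠ c)
    (hab : a ≠ b) (hbc : b ≠ c) (hac : a ≠ c) (hn : s(a, b) ∉ T)
    (hinc : ∀ e ∈ T, v ∈ e → e = s(v, a) ∨ e = s(v, b) ∨ e = s(v, c))
    (ho : Ordered (S.erase v) (insert s(a, b) (T.filter (fun e => v ∉ e)))) : Ordered S T := by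
  have ha' : a ∈ S.erase v := Finset.mem_erase.2 ⟨hva.symm, ha⟩
  have hb' : b ∈ S.erase v := Finset.mem_erase.2 ⟨hvb.symm, hb⟩
  have hc' : c ∈ S.erase v := Finset.mem_erase.2 ⟨hvc.symm, hc⟩
  have hv' := Finset.notMem_erase v S
  have hn' : s(b, a) ∉ T := by rwa [Sym2.eq_swap]
  have hinc' : ∀ e ∈ T, v ∈ e → e = s(v, b) ∨ e = s(v, a) ∨ e = s(v, c) := fun e he hm => by
    have := hinc e he hm
    tauto
  obtain ⟨ξ, r, l, ho'⟩ := ho
  have ho : Ord ξ r l (S.erase v) (insert s(a, b) (T.filter (fun e => v ∉ e))) := ho'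
  have ho2 : Ord ξ r l (S.erase v) (insert s(b, a) (T.filter (fun e => v ∉ e))) := by
    rwa [Sym2.eq_swap]
  rw [← Finset.insert_erase hv]
  rcases ho.2.2.2 a b (Finset.mem_insert_self _ _) with h | h | h | h
  · exact insert3' hv' ha' hb' hc' hab hbc hn hinc ho h
  · exact insert3' hv' ha' hb' hc' hab hbc hn hinc ho.mirror h
  · exact insert3' hv' hb' ha' hc' hab.symm hac hn' hinc' ho2 h
  · exact insert3' hv' hb' ha' hc' hab.symm hac hn' hinc' ho2.mirror h

end Pool.Agent.Lib.RACS
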