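import Mathlib

/-!
# Splitting a (4,6)-sparse graph into two (2,3)-sparse graphs (exchange argument)
-/

set_option autoImplicit false

namespace Pool.Agent.Lib.RACS.Spl

variable {V : Type*} [DecidableEq V]

/-- edges of `F` inside `X` -/
def ins (F : Finset (Sym2 V)) (X : Finset V) : Finset (Sym2 V) :=
  F.filter (fun e => e ∈ X.sym2)

/-- `(2,3)`-sparse -/
def Sp (F : Finset (Sym2 V)) : Prop :=
  ∀ X : Finset V, 2 ≤ X.card → (ins F X).card + 3 ≤ 2 * X.card

/-- tight vertex set -/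
def Tt (F : Finset (Sym2 V)) (X : Finset V) : Prop :=
  2 ≤ X.card ∧ (ins F X).card + 3 = 2 * X.card

theorem mem_ins {F : Finset (Sym2 V)} {X : Finset V} {e : Sym2 V} :
    e ∈ ins F X ↔ e ∈ F ∧ e ∈ X.sym2 := by
  unfold ins; simp only [Finset.mem_filter]

theorem ins_mono {F G : Finset (Sym2 V)} (h : F ⊆ G) (X : Finset V) : ins F X ⊆ ins G X := by
  intro e he; rw [mem_ins] at he ⊢; exact ⟨h he.1, he.2⟩

theorem Sp.mono {F G : Finset (Sym2 V)} (h : F ⊆ G) (hG : Sp G) : Sp F := by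
  intro X hX
  have := hG X hX
  have h2 := Finset.card_le_card (ins_mono h X)
  omega

theorem sym2_inter {X Y : Finset V} {e : Sym2 V} :
    e ∈ (X ∩ Y).sym2 ↔ e ∈ X.sym2 ∧ e ∈ Y.sym2 := by
  simp only [Finset.mem_sym2_iff, Finset.mem_inter]
  constructor
  · intro h; exact ⟨fun a ha => (h a ha).1, fun a ha => (h a ha).2⟩
  · rintro ⟨h1, h2⟩ a ha; exact ⟨h1 a ha, h2 a ha⟩

theorem sym2_mono {X Y : Finset V} (h : X ⊆ Y) {e : Sym2 V} (he : e ∈ X.sym2) : e ∈ Y.sym2 := by
  rw [Finset.mem_sym2_iff] at he ⊢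
  exact fun a ha => h (he a ha)

theorem supermod (F : Finset (Sym2 V)) (X Y : Finset V) :
    (ins F X).card + (ins F Y).card ≤ (ins F (X ∪ Y)).card + (ins F (X ∩ Y)).card := by
  rw [← Finset.card_union_add_card_inter]
  have h1 : ins F X ∪ ins F Y ⊆ ins F (X ∪ Y) := by
    intro e he
    rw [Finset.mem_union, mem_ins, mem_ins] at he
    rw [mem_ins]
    rcases he with h | h
    · exact ⟨h.1, sym2_mono Finset.subset_union_left h.2⟩
    · exact ⟨h.1, sym2_mono Finset.subset_union_right h.2⟩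
  have h2 : ins F X ∩ ins F Y ⊆ ins F (X ∩ Y) := by
    intro e he
    rw [Finset.mem_inter, mem_ins, mem_ins] at he
    rw [mem_ins, sym2_inter]
    exact ⟨he.1.1, he.1.2, he.2.2⟩
  have := Finset.card_le_card h1
  have := Finset.card_le_card h2
  omega

theorem tight_uncross {F : Finset (Sym2 V)} (hF : Sp F) {X Y : Finset V} (hX : Tt F X)
    (hY : Tt F Y) (h : 2 ≤ (X ∩ Y).card) : Tt F (X ∪ Y) ∧ Tt F (X ∩ Y) := by
  have h1 := supermod F X Y
  have h2 := hF (X ∩ Y) h
  have h3 : 2 ≤ (X ∪ Y).card := by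
    have := Finset.card_le_card (Finset.subset_union_left : X ⊆ X ∪ Y)
    have := hX.1
    omega
  have h4 := hF (X ∪ Y) h3
  have h5 := Finset.card_union_add_card_inter X Y
  have hX2 := hX.2
  have hY2 := hY.2
  refine ⟨⟨h3, ?_⟩, ⟨h, ?_⟩⟩ <;> omega

/-- a non-diagonal edge in two sets gives two common points -/
theorem two_le_of_mem {X : Finset V} {e : Sym2 V} (he : ¬ e.IsDiag) (h : e ∈ X.sym2) :
    2 ≤ X.card := by
  induction e using Sym2.ind with
  | _ a b =>
    rw [Sym2.mk_isDiag_iff] at he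
    rw [Finset.mk_mem_sym2_iff] at h
    have : ({a, b} : Finset V) ⊆ X := by
      intro x hx
      rw [Finset.mem_insert, Finset.mem_singleton] at hx
      rcases hx with rfl | rfl
      · exact h.1
      · exact h.2
    have h2 := Finset.card_le_card this
    rw [Finset.card_pair he] at h2
    exact h2

theorem exists_tight {L : Finset (Sym2 V)} (hL : Sp L) {f : Sym2 V}
    (hns : ¬ Sp (insert f L)) : ∃ X, Tt L X ∧ f ∈ X.sym2 := by
  unfold Sp at hns
  push_neg at hns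
  obtain ⟨X, hX, h⟩ := hns
  have h1 := hL X hX
  by_cases hf : f ∈ X.sym2
  · refine ⟨X, ⟨hX, ?_⟩, hf⟩
    have h2 : ins (insert f L) X ⊆ insert f (ins L X) := by
      intro e he
      rw [mem_ins, Finset.mem_insert] at he
      rw [Finset.mem_insert, mem_ins]
      rcases he.1 with h3 | h3
      · exact Or.inl h3
      · exact Or.inr ⟨h3, he.2⟩
    have h3 := Finset.card_le_card h2
    have h4 := Finset.card_insert_le f (ins L X)
    omega
  · exfalso
    have h2 : ins (insert f L) X ⊆ ins L X := by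
      intro e he
      rw [mem_ins, Finset.mem_insert] at he
      rw [mem_ins]
      rcases he.1 with h3 | h3
      · subst h3; exact absurd he.2 hf
      · exact ⟨h3, he.2⟩
    have h3 := Finset.card_le_card h2
    omega

theorem exists_min_tight {L : Finset (Sym2 V)} (hL : Sp L) {f : Sym2 V}
    (hns : ¬ Sp (insert f L)) :
    ∃ X, Tt L X ∧ f ∈ X.sym2 ∧ ∀ Y, Tt L Y → f ∈ Y.sym2 → X.card ≤ Y.card := by
  classical
  obtain ⟨X0, h0, h1⟩ := exists_tight hL hns
  have hex : ∃ n, ∃ X, Tt L X ∧ f ∈ X.sym2 ∧ X.card = n := ⟨_, X0, h0, h1, rfl⟩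
  obtain ⟨X, hX, hfX, hc⟩ := Nat.find_spec hex
  refine ⟨X, hX, hfX, ?_⟩
  intro Y hY hfY
  rw [hc]
  exact Nat.find_min' hex ⟨Y, hY, hfY, rfl⟩

/-- cardinality after an exchange, for sets containing both edges -/
theorem card_exch {A : Finset (Sym2 V)} {f g : Sym2 V} (hf : f ∉ A) (hg : g ∈ A)
    {Z : Finset V} (hfZ : f ∈ Z.sym2) (hgZ : g ∈ Z.sym2) :
    (ins (insert f (A.erase g)) Z).card = (ins A Z).card := by
  have h1 : ins (insert f (A.erase g)) Z = insert f ((ins A Z).erase g) := by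
    ext e
    rw [mem_ins, Finset.mem_insert, Finset.mem_erase, Finset.mem_insert, Finset.mem_erase, mem_ins]
    constructor
    · rintro ⟨h | h, h2⟩
      · exact Or.inl h
      · exact Or.inr ⟨h.1, h.2, h2⟩
    · rintro (h | ⟨h, h2, h3⟩)
      · exact ⟨Or.inl h, h ▸ hfZ⟩
      · exact ⟨Or.inr ⟨h, h2⟩, h3⟩
  rw [h1, Finset.card_insert_of_notMem, Finset.card_erase_of_mem]
  · have : 0 < (ins A Z).card := Finset.card_pos.2 ⟨g, mem_ins.2 ⟨hg, hgZ⟩⟩
    omega
  · exact mem_ins.2 ⟨hg, hgZ⟩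
  · intro h
    rw [Finset.mem_erase, mem_ins] at h
    exact hf h.2.1

/-- an exchange along an edge of the minimal tight set stays sparse -/
theorem exch_sparse {L : Finset (Sym2 V)} (hL : Sp L) {f g : Sym2 V} (hfd : ¬ f.IsDiag)
    (hf : f ∉ L) {X : Finset V} (hX : Tt L X) (hfX : f ∈ X.sym2)
    (hmin : ∀ Y, Tt L Y → f ∈ Y.sym2 → X.card ≤ Y.card) (hg : g ∈ ins L X) :
    Sp (insert f (L.erase g)) := by
  rw [mem_ins] at hg
  intro Z hZ
  have h1 := hL Z hZ
  by_cases hfZ : f ∈ Z.sym2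
  · by_cases hgZ : g ∈ Z.sym2
    · rw [card_exch hf hg.1 hfZ hgZ]; exact h1
    · -- if Z is tight for L we get a smaller tight set
      have h2 : ins (insert f (L.erase g)) Z ⊆ insert f (ins L Z) := by
        intro e he
        rw [mem_ins, Finset.mem_insert, Finset.mem_erase] at he
        rw [Finset.mem_insert, mem_ins]
        rcases he.1 with h | h
        · exact Or.inl h
        · exact Or.inr ⟨h.2, he.2⟩
      have h3 := Finset.card_le_card h2
      have h4 := Finset.card_insert_le f (ins L Z)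
      by_contra hcon
      have hZt : Tt L Z := ⟨hZ, by omega⟩
      have hfi : f ∈ (X ∩ Z).sym2 := sym2_inter.2 ⟨hfX, hfZ⟩
      have h5 := (tight_uncross hL hX hZt (two_le_of_mem hfd hfi)).2
      have h6 := hmin _ h5 hfi
      have h7 : X ∩ Z = X := Finset.eq_of_subset_of_card_le Finset.inter_subset_left h6
      apply hgZ
      have h8 : g ∈ (X ∩ Z).sym2 := by rw [h7]; exact hg.2
      exact (sym2_inter.1 h8).2
  · have h2 : ins (insert f (L.erase g)) Z ⊆ ins L Z := by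
      intro e he
      rw [mem_ins, Finset.mem_insert, Finset.mem_erase] at he
      rw [mem_ins]
      rcases he.1 with h | h
      · subst h; exact absurd he.2 hfZ
      · exact ⟨h.2, he.2⟩
    have h3 := Finset.card_le_card h2
    omega

/-- if the exchange is sparse then the removed edge lies in every tight set about `f` -/
theorem mem_of_exch {L : Finset (Sym2 V)} {f g : Sym2 V} (hf : f ∉ L)
    {X : Finset V} (hX : Tt L X) (hfX : f ∈ X.sym2) (hs : Sp (insert f (L.erase g))) :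
    g ∈ X.sym2 := by
  by_contra hg
  have h1 : ins (insert f (L.erase g)) X = insert f (ins L X) := by
    ext e
    rw [mem_ins, Finset.mem_insert, Finset.mem_erase, Finset.mem_insert, mem_ins]
    constructor
    · rintro ⟨h | h, h2⟩
      · exact Or.inl h
      · exact Or.inr ⟨h.2, h2⟩
    · rintro (h | ⟨h, h2⟩)
      · exact ⟨Or.inl h, h ▸ hfX⟩
      · refine ⟨Or.inr ⟨?_, h⟩, h2⟩
        rintro rfl
        exact hg h2
  have h2 := hs X hX.1
  rw [h1, Finset.card_insert_of_notMem] at h2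
  · have := hX.2
    omega
  · intro h; exact hf (mem_ins.1 h).1

/-- the cover of an edge by tight sets is invariant under an exchange -/
theorem cover_inv {A : Finset (Sym2 V)} (hA : Sp A) {f g : Sym2 V} (hfd : ¬ f.IsDiag)
    (hf : f ∉ A) (hgA : g ∈ A) {X : Finset V} (hX : Tt A X) (hfX : f ∈ X.sym2)
    (hgX : g ∈ X.sym2) (hA' : Sp (insert f (A.erase g))) {r : Sym2 V}
    (h : ∃ W, Tt (insert f (A.erase g)) W ∧ r ∈ W.sym2) : ∃ W, Tt A W ∧ r ∈ W.sym2 := by
  obtain ⟨W, hW, hr⟩ := h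
  by_cases hfW : f ∈ W.sym2
  · have hX' : Tt (insert f (A.erase g)) X := by
      refine ⟨hX.1, ?_⟩
      rw [card_exch hf hgA hfX hgX]; exact hX.2
    have hfi : f ∈ (W ∩ X).sym2 := sym2_inter.2 ⟨hfW, hfX⟩
    have h1 := (tight_uncross hA' hW hX' (two_le_of_mem hfd hfi)).1
    refine ⟨W ∪ X, ⟨h1.1, ?_⟩, sym2_mono Finset.subset_union_left hr⟩
    have h2 := h1.2
    rw [card_exch hf hgA (sym2_mono Finset.subset_union_left hfW)
      (sym2_mono Finset.subset_union_right hgX)] at h2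
    exact h2
  · refine ⟨W, ⟨hW.1, ?_⟩, hr⟩
    have h1 := hA W hW.1
    have h2 : ins (insert f (A.erase g)) W ⊆ ins A W := by
      intro e he
      rw [mem_ins, Finset.mem_insert, Finset.mem_erase] at he
      rw [mem_ins]
      rcases he.1 with h | h
      · subst h; exact absurd he.2 hfW
      · exact ⟨h.2, he.2⟩
    have h3 := Finset.card_le_card h2
    have h4 := hW.2
    omega

section count
variable [Fintype V]

open Classical in
/-- the counting step -/
theorem count_le {A R : Finset (Sym2 V)} (hA : Sp A) (hAd : ∀ e ∈ A, ¬ e.IsDiag)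
    (hR : ∀ X : Finset V, 2 ≤ X.card → (ins R X).card + 6 ≤ 4 * X.card)
    (hc : ∀ r ∈ R, ∃ W, Tt A W ∧ r ∈ W.sym2) : R.card ≤ 2 * A.card := by
  set T : Finset (Finset V) :=
    Finset.univ.filter (fun X => Tt A X ∧ ∀ Y, Tt A Y → X ⊆ Y → X = Y) with hT
  have hmax : ∀ W, Tt A W → ∃ X ∈ T, W ⊆ X := by
    intro W hW
    have hex : ∃ X ∈ (Finset.univ.filter (fun X : Finset V => Tt A X ∧ W ⊆ X)),
        ∀ Y ∈ (Finset.univ.filter (fun X : Finset V => Tt A X ∧ W ⊆ X)), Y.card ≤ X.card := by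
      apply Finset.exists_max_image
      exact ⟨W, by simp [hW]⟩
    obtain ⟨X, hX, hXm⟩ := hex
    rw [Finset.mem_filter] at hX
    refine ⟨X, ?_, hX.2.2⟩
    rw [hT, Finset.mem_filter]
    refine ⟨Finset.mem_univ _, hX.2.1, ?_⟩
    intro Y hY hXY
    apply Finset.eq_of_subset_of_card_le hXY
    apply hXm
    rw [Finset.mem_filter]
    exact ⟨Finset.mem_univ _, hY, hX.2.2.trans hXY⟩
  have hdisj : ∀ X ∈ T, ∀ Y ∈ T, X ≠ Y → Disjoint (ins A X) (ins A Y) := by
    intro X hX Y hY hne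
    rw [Finset.disjoint_left]
    intro e heX heY
    rw [mem_ins] at heX heY
    rw [hT, Finset.mem_filter] at hX hY
    have hi : e ∈ (X ∩ Y).sym2 := sym2_inter.2 ⟨heX.2, heY.2⟩
    have h1 := (tight_uncross hA hX.2.1 hY.2.1 (two_le_of_mem (hAd e heX.1) hi)).1
    have h2 := hX.2.2 _ h1 Finset.subset_union_left
    have h3 := hY.2.2 _ h1 Finset.subset_union_right
    exact hne (h2.trans h3.symm)
  have h1 : R ⊆ T.biUnion (fun X => ins R X) := by
    intro r hr
    obtain ⟨W, hW, hrW⟩ := hc r hr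
    obtain ⟨X, hX, hWX⟩ := hmax W hW
    rw [Finset.mem_biUnion]
    exact ⟨X, hX, mem_ins.2 ⟨hr, sym2_mono hWX hrW⟩⟩
  have h2 : (T.biUnion (fun X => ins A X)).card = ∑ X ∈ T, (ins A X).card :=
    Finset.card_biUnion hdisj
  have h3 : T.biUnion (fun X => ins A X) ⊆ A := by
    intro e he
    rw [Finset.mem_biUnion] at he
    obtain ⟨X, _, h⟩ := he
    exact (mem_ins.1 h).1
  calc R.card ≤ (T.biUnion (fun X => ins R X)).card := Finset.card_le_card h1
    _ ≤ ∑ X ∈ T, (ins R X).card := Finset.card_biUnion_le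
    _ ≤ ∑ X ∈ T, 2 * (ins A X).card := by
        apply Finset.sum_le_sum
        intro X hX
        rw [hT, Finset.mem_filter] at hX
        have h4 := hX.2.1
        have h5 := hR X h4.1
        have h6 := h4.2
        omega
    _ = 2 * (T.biUnion (fun X => ins A X)).card := by rw [h2, Finset.mul_sum]
    _ ≤ 2 * A.card := by
        have := Finset.card_le_card h3
        omega

end count

/-- states of the exchange process -/
structure St (V : Type*) where
  L : Finset (Sym2 V)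
  M : Finset (Sym2 V)
  f : Sym2 V

/-- validity of a state -/
def Ok (E : Finset (Sym2 V)) (s : St V) : Prop :=
  s.f ∈ E ∧ s.f ∉ s.L ∧ s.f ∉ s.M ∧ Disjoint s.L s.M ∧ s.L ∪ s.M = E.erase s.f ∧ Sp s.L ∧ Sp s.M

/-- one exchange -/
def Stp (E : Finset (Sym2 V)) (s t : St V) : Prop :=
  Ok E t ∧ ((t.f ∈ s.L ∧ t.L = insert s.f (s.L.erase t.f) ∧ t.M = s.M) ∨
    (t.f ∈ s.M ∧ t.M = insert s.f (s.M.erase t.f) ∧ t.L = s.L))

theorem ok_step_L {E : Finset (Sym2 V)} (hE : ∀ e ∈ E, ¬ e.IsDiag) {s : St V} (hs : Ok E s)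
    {X : Finset V} (hX : Tt s.L X) (hfX : s.f ∈ X.sym2)
    (hmin : ∀ Y, Tt s.L Y → s.f ∈ Y.sym2 → X.card ≤ Y.card) {g : Sym2 V} (hg : g ∈ ins s.L X) :
    Stp E s ⟨insert s.f (s.L.erase g), s.M, g⟩ := by
  obtain ⟨h1, h2, h3, h4, h5, h6, h7⟩ := hs
  have hg' := mem_ins.1 hg
  have hgE : g ∈ E.erase s.f := by rw [← h5]; exact Finset.mem_union_left _ hg'.1
  have hgM : g ∉ s.M := Finset.disjoint_left.1 h4 hg'.1
  have hgf : g ≠ s.f := (Finset.mem_erase.1 hgE).1
  refine ⟨⟨(Finset.mem_erase.1 hgE).2, ?_, hgM, ?_, ?_, ?_, h7⟩, Or.inl ⟨hg'.1, rfl, rfl⟩⟩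
  · intro h
    rw [Finset.mem_insert, Finset.mem_erase] at h
    rcases h with h | h
    · exact hgf h
    · exact h.1 rfl
  · rw [Finset.disjoint_left]
    intro e he heM
    rw [Finset.mem_insert, Finset.mem_erase] at he
    rcases he with h | h
    · subst h; exact h3 heM
    · exact Finset.disjoint_left.1 h4 h.2 heM
  · ext e
    have h8 : e ∈ s.L ∪ s.M ↔ e ∈ E.erase s.f := by rw [h5]
    rw [Finset.mem_union, Finset.mem_erase] at h8
    rw [Finset.mem_union, Finset.mem_insert, Finset.mem_erase, Finset.mem_erase]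
    constructor
    · rintro ((h | h) | h)
      · subst h; exact ⟨fun h => hgf h.symm, h1⟩
      · exact ⟨h.1, (h8.1 (Or.inl h.2)).2⟩
      · refine ⟨?_, (h8.1 (Or.inr h)).2⟩
        rintro rfl
        exact hgM h
    · rintro ⟨h, h'⟩
      by_cases hef : e = s.f
      · exact Or.inl (Or.inl hef)
      · rcases h8.2 ⟨hef, h'⟩ with h9 | h9
        · exact Or.inl (Or.inr ⟨h, h9⟩)
        · exact Or.inr h9
  · exact exch_sparse h6 (hE _ h1) h2 hX hfX hmin hg

theorem Ok.swap {E : Finset (Sym2 V)} {s : St V} (h : Ok E s) : Ok E ⟨s.M, s.L, s.f⟩ := by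
  obtain ⟨h1, h2, h3, h4, h5, h6, h7⟩ := h
  exact ⟨h1, h3, h2, h4.symm, by rw [Finset.union_comm]; exact h5, h7, h6⟩

theorem Stp.swap {E : Finset (Sym2 V)} {s t : St V} (h : Stp E s t) :
    Stp E ⟨s.M, s.L, s.f⟩ ⟨t.M, t.L, t.f⟩ := by
  obtain ⟨h1, h2⟩ := h
  exact ⟨h1.swap, h2.symm⟩

theorem ok_step_M {E : Finset (Sym2 V)} (hE : ∀ e ∈ E, ¬ e.IsDiag) {s : St V} (hs : Ok E s)
    {X : Finset V} (hX : Tt s.M X) (hfX : s.f ∈ X.sym2)
    (hmin : ∀ Y, Tt s.M Y → s.f ∈ Y.sym2 → X.card ≤ Y.card) {g : Sym2 V} (hg : g ∈ ins s.M X) :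
    Stp E s ⟨s.L, insert s.f (s.M.erase g), g⟩ :=
  (ok_step_L hE hs.swap (s := ⟨s.M, s.L, s.f⟩) hX hfX hmin hg).swap

/-- reachable states -/
def Rch (E : Finset (Sym2 V)) (s t : St V) : Prop := Relation.ReflTransGen (Stp E) s t

theorem Rch.ok {E : Finset (Sym2 V)} {s t : St V} (hs : Ok E s) (h : Rch E s t) : Ok E t := by
  induction h with
  | refl => exact hs
  | tail _ h2 _ => exact h2.1

open Classical in
/-- the set of reachable missing edges -/
noncomputable def RR (E : Finset (Sym2 V)) (s : St V) : Finset (Sym2 V) :=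
  E.filter (fun r => ∃ t, Rch E s t ∧ t.f = r)

theorem mem_RR {E : Finset (Sym2 V)} {s : St V} {r : Sym2 V} :
    r ∈ RR E s ↔ r ∈ E ∧ ∃ t, Rch E s t ∧ t.f = r := by
  unfold RR; simp only [Finset.mem_filter]

theorem mem_RR_of {E : Finset (Sym2 V)} {s t : St V} (hs : Ok E s) (h : Rch E s t) :
    t.f ∈ RR E s := mem_RR.2 ⟨(h.ok hs).1, t, h, rfl⟩

/-- the minimal tight set of a reachable state has its edges in `R` -/
theorem closed_L {E : Finset (Sym2 V)} (hE : ∀ e ∈ E, ¬ e.IsDiag) {s t : St V} (hs : Ok E s)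
    (h : Rch E s t) (hns : ¬ Sp (insert t.f t.L)) :
    ∃ X, Tt t.L X ∧ t.f ∈ X.sym2 ∧ ins t.L X ⊆ RR E s := by
  have ht := h.ok hs
  obtain ⟨X, h1, h2, h3⟩ := exists_min_tight ht.2.2.2.2.2.1 hns
  refine ⟨X, h1, h2, ?_⟩
  intro g hg
  have h4 := ok_step_L hE ht h1 h2 h3 hg
  exact mem_RR_of hs (h.tail h4)

theorem closed_M {E : Finset (Sym2 V)} (hE : ∀ e ∈ E, ¬ e.IsDiag) {s t : St V} (hs : Ok E s)
    (h : Rch E s t) (hns : ¬ Sp (insert t.f t.M)) :
    ∃ X, Tt t.M X ∧ t.f ∈ X.sym2 ∧ ins t.M X ⊆ RR E s := by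
  have ht := h.ok hs
  obtain ⟨X, h1, h2, h3⟩ := exists_min_tight ht.2.2.2.2.2.2 hns
  refine ⟨X, h1, h2, ?_⟩
  intro g hg
  have h4 := ok_step_M hE ht h1 h2 h3 hg
  exact mem_RR_of hs (h.tail h4)

theorem ins_inter_eq {L R : Finset (Sym2 V)} {X : Finset V} (h : ins L X ⊆ R) :
    ins (L ∩ R) X = ins L X := by
  ext e
  rw [mem_ins, mem_ins, Finset.mem_inter]
  constructor
  · rintro ⟨h1, h2⟩; exact ⟨h1.1, h2⟩
  · rintro ⟨h1, h2⟩; exact ⟨⟨h1, h (mem_ins.2 ⟨h1, h2⟩)⟩, h2⟩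

/-- exchange and intersection with `R` -/
theorem exch_inter {L R : Finset (Sym2 V)} {f g : Sym2 V} (hf : f ∈ R) :
    insert f (L.erase g) ∩ R = insert f ((L ∩ R).erase g) := by
  ext e
  rw [Finset.mem_inter, Finset.mem_insert, Finset.mem_insert, Finset.mem_erase, Finset.mem_erase,
    Finset.mem_inter]
  constructor
  · rintro ⟨h | h, h2⟩
    · exact Or.inl h
    · exact Or.inr ⟨h.1, h.2, h2⟩
  · rintro (h | h)
    · exact ⟨Or.inl h, h ▸ hf⟩
    · exact ⟨Or.inr ⟨h.1, h.2.1⟩, h.2.2⟩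

/-- one exchange, general form -/
theorem inv_one {R L : Finset (Sym2 V)} {f g : Sym2 V} (hL : Sp L) (hfd : ¬ f.IsDiag)
    (hf : f ∉ L) (hg : g ∈ L) (hfR : f ∈ R) (hgR : g ∈ R)
    (hL' : Sp (insert f (L.erase g))) {X : Finset V} (hX : Tt L X) (hfX : f ∈ X.sym2)
    (hXR : ins L X ⊆ R) {r : Sym2 V}
    (h : ∃ W, Tt (insert f (L.erase g) ∩ R) W ∧ r ∈ W.sym2) :
    ∃ W, Tt (L ∩ R) W ∧ r ∈ W.sym2 := by
  rw [exch_inter hfR] at h
  refine cover_inv (A := L ∩ R) (f := f) (g := g) (hL.mono Finset.inter_subset_left) hfd ?_ ?_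
    (X := X) ?_ hfX (mem_of_exch hf hX hfX hL') ?_ h
  · intro h2; exact hf (Finset.mem_inter.1 h2).1
  · exact Finset.mem_inter.2 ⟨hg, hgR⟩
  · refine ⟨hX.1, ?_⟩
    rw [ins_inter_eq hXR]; exact hX.2
  · rw [← exch_inter hfR]
    exact hL'.mono Finset.inter_subset_left

theorem inv_all {E : Finset (Sym2 V)} (hE : ∀ e ∈ E, ¬ e.IsDiag) {s : St V} (hs : Ok E s)
    (hL : ∀ t, Rch E s t → ¬ Sp (insert t.f t.L)) (hM : ∀ t, Rch E s t → ¬ Sp (insert t.f t.M))
    {t : St V} (h : Rch E s t) (r : Sym2 V) :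
    ((∃ W, Tt (t.L ∩ RR E s) W ∧ r ∈ W.sym2) → ∃ W, Tt (s.L ∩ RR E s) W ∧ r ∈ W.sym2) ∧
    ((∃ W, Tt (t.M ∩ RR E s) W ∧ r ∈ W.sym2) → ∃ W, Tt (s.M ∩ RR E s) W ∧ r ∈ W.sym2) := by
  induction h with
  | refl => exact ⟨id, id⟩
  | @tail u v h1 h2 ih =>
    have hu := Rch.ok hs h1
    have hfR := mem_RR_of hs h1
    have hgR : v.f ∈ RR E s := mem_RR_of hs (Relation.ReflTransGen.tail h1 h2)
    obtain ⟨hv, h3 | h3⟩ := h2
    · obtain ⟨hg, hvL, hvM⟩ := h3
      refine ⟨?_, ?_⟩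
      · intro h
        apply ih.1
        obtain ⟨X, hX, hfX, hXR⟩ := closed_L hE hs h1 (hL u h1)
        rw [hvL] at h
        refine inv_one hu.2.2.2.2.2.1 (hE _ hu.1) hu.2.1 hg hfR hgR ?_ hX hfX hXR h
        rw [← hvL]; exact hv.2.2.2.2.2.1
      · intro h
        apply ih.2
        rw [hvM] at h
        exact h
    · obtain ⟨hg, hvM, hvL⟩ := h3
      refine ⟨?_, ?_⟩
      · intro h
        apply ih.1
        rw [hvL] at h
        exact h
      · intro h
        apply ih.2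
        obtain ⟨X, hX, hfX, hXR⟩ := closed_M hE hs h1 (hM u h1)
        rw [hvM] at h
        refine inv_one hu.2.2.2.2.2.2 (hE _ hu.1) hu.2.2.1 hg hfR hgR ?_ hX hfX hXR h
        rw [← hvM]; exact hv.2.2.2.2.2.2

variable [Fintype V]

/-- no stuck state -/
theorem not_stuck {E : Finset (Sym2 V)} (hE : ∀ e ∈ E, ¬ e.IsDiag)
    (hsp : ∀ X : Finset V, 2 ≤ X.card → (ins E X).card + 6 ≤ 4 * X.card)
    {s : St V} (hs : Ok E s) (hL : ∀ t, Rch E s t → ¬ Sp (insert t.f t.L))
    (hM : ∀ t, Rch E s t → ¬ Sp (insert t.f t.M)) : False := by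
  set R := RR E s with hR
  have hRE : R ⊆ E := fun e he => (mem_RR.1 he).1
  have hR6 : ∀ X : Finset V, 2 ≤ X.card → (ins R X).card + 6 ≤ 4 * X.card := by
    intro X hX
    have h1 := hsp X hX
    have h2 := Finset.card_le_card (ins_mono hRE X)
    omega
  have hcL : R.card ≤ 2 * (s.L ∩ R).card := by
    apply count_le (hs.2.2.2.2.2.1.mono Finset.inter_subset_left)
    · intro e he
      apply hE
      have : e ∈ s.L ∪ s.M := Finset.mem_union_left _ (Finset.mem_inter.1 he).1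
      rw [hs.2.2.2.2.1] at this
      exact (Finset.mem_erase.1 this).2
    · exact hR6
    · intro r hr
      obtain ⟨_, t, ht, htr⟩ := mem_RR.1 hr
      obtain ⟨X, h1, h2, h3⟩ := closed_L hE hs ht (hL t ht)
      apply (inv_all hE hs hL hM ht r).1
      refine ⟨X, ⟨h1.1, ?_⟩, htr ▸ h2⟩
      rw [ins_inter_eq h3]; exact h1.2
  have hcM : R.card ≤ 2 * (s.M ∩ R).card := by
    apply count_le (hs.2.2.2.2.2.2.mono Finset.inter_subset_left)
    · intro e he
      apply hE
      have : e ∈ s.L ∪ s.M := Finset.mem_union_right _ (Finset.mem_inter.1 he).1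
      rw [hs.2.2.2.2.1] at this
      exact (Finset.mem_erase.1 this).2
    · exact hR6
    · intro r hr
      obtain ⟨_, t, ht, htr⟩ := mem_RR.1 hr
      obtain ⟨X, h1, h2, h3⟩ := closed_M hE hs ht (hM t ht)
      apply (inv_all hE hs hL hM ht r).2
      refine ⟨X, ⟨h1.1, ?_⟩, htr ▸ h2⟩
      rw [ins_inter_eq h3]; exact h1.2
  have hfR : s.f ∈ R := mem_RR_of hs Relation.ReflTransGen.refl
  have hsum : (s.L ∩ R).card + (s.M ∩ R).card + 1 ≤ R.card := by
    rw [← Finset.card_union_of_disjoint]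
    · have h1 : insert s.f (s.L ∩ R ∪ s.M ∩ R) ⊆ R := by
        intro e he
        rw [Finset.mem_insert, Finset.mem_union, Finset.mem_inter, Finset.mem_inter] at he
        rcases he with h | h | h
        · exact h ▸ hfR
        · exact h.2
        · exact h.2
      have h2 := Finset.card_le_card h1
      rw [Finset.card_insert_of_notMem] at h2
      · exact h2
      · intro h
        rw [Finset.mem_union, Finset.mem_inter, Finset.mem_inter] at h
        rcases h with h | h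
        · exact hs.2.1 h.1
        · exact hs.2.2.1 h.1
    · rw [Finset.disjoint_left]
      intro e he he2
      exact Finset.disjoint_left.1 hs.2.2.2.1 (Finset.mem_inter.1 he).1 (Finset.mem_inter.1 he2).1
  omega

/-- SPLITTING LEMMA -/
theorem split (E : Finset (Sym2 V)) (hE : ∀ e ∈ E, ¬ e.IsDiag)
    (hsp : ∀ X : Finset V, 2 ≤ X.card → (ins E X).card + 6 ≤ 4 * X.card) :
    ∃ L M : Finset (Sym2 V), Disjoint L M ∧ L ∪ M = E ∧ Sp L ∧ Sp M := by
  induction E using Finset.induction_on with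
  | empty =>
    refine ⟨∅, ∅, Finset.disjoint_empty_left _, by simp, ?_, ?_⟩ <;>
    · intro X hX
      have : ins (∅ : Finset (Sym2 V)) X = ∅ := by
        ext e; rw [mem_ins]; simp
      rw [this, Finset.card_empty]
      omega
  | @insert f E' hf ih =>
    obtain ⟨L, M, hd, hu, hL, hM⟩ := ih (fun e he => hE e (Finset.mem_insert_of_mem he))
      (fun X hX => by
        have h1 := hsp X hX
        have h2 := Finset.card_le_card (ins_mono (Finset.subset_insert f E') X)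
        omega)
    by_contra hcon
    have hfL : f ∉ L := fun h => hf (hu ▸ Finset.mem_union_left _ h)
    have hfM : f ∉ M := fun h => hf (hu ▸ Finset.mem_union_right _ h)
    have hs : Ok (insert f E') ⟨L, M, f⟩ :=
      ⟨Finset.mem_insert_self _ _, hfL, hfM, hd, by
        show L ∪ M = (insert f E').erase f
        rw [Finset.erase_insert hf, hu], hL, hM⟩
    refine not_stuck hE hsp hs ?_ ?_
    · intro t ht hsp'
      have h1 := ht.ok hs
      apply hcon
      refine ⟨insert t.f t.L, t.M, ?_, ?_, hsp', h1.2.2.2.2.2.2⟩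
      · rw [Finset.disjoint_insert_left]
        exact ⟨h1.2.2.1, h1.2.2.2.1⟩
      · rw [Finset.insert_union, h1.2.2.2.2.1, Finset.insert_erase h1.1]
    · intro t ht hsp'
      have h1 := ht.ok hs
      apply hcon
      refine ⟨t.L, insert t.f t.M, ?_, ?_, h1.2.2.2.2.2.1, hsp'⟩
      · rw [Finset.disjoint_insert_right]
        exact ⟨h1.2.1, h1.2.2.2.1⟩
      · rw [Finset.union_insert, h1.2.2.2.2.1, Finset.insert_erase h1.1]

end Pool.Agent.Lib.RACS.Spl
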