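import Pool.Agent.Lib.RACS.Sparse
import Pool.Agent.Lib.RACS.Split

/-!
# The splitting lemma (MP_bf8d95_lc): (4,6)-sparse graphs are unions of two (2,3)-sparse ones
-/

set_option autoImplicit false

namespace Pool.Agent.Lib.RACS

variable {V : Type} [DecidableEq V]

theorem cnt_eq_ins (T : Finset (Sym2 V)) (X : Finset V) : cnt T X = (Spl.ins T X).card := by
  have h : T ∩ X.sym2 = Spl.ins T X := by
    ext e
    rw [Finset.mem_inter, Spl.mem_ins]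
  unfold cnt
  rw [h]

theorem sp_of_spl {T : Finset (Sym2 V)} (h : Spl.Sp T) : Sp T := by
  intro X hX
  rw [cnt_eq_ins]
  exact h X hX

/-- M3. See part (C) of the proof. The two parts are disjoint. -/
theorem split_lemma' [Fintype V] (T : Finset (Sym2 V)) (hd : ∀ e ∈ T, ¬ e.IsDiag)
    (hs : ∀ X : Finset V, 2 ≤ X.card → cnt T X + 6 ≤ 4 * X.card) :
    ∃ L₁ L₂ : Finset (Sym2 V), Disjoint L₁ L₂ ∧ L₁ ∪ L₂ = T ∧ Sp L₁ ∧ Sp L₂ := by
  obtain ⟨L, M, h1, h2, h3, h4⟩ := Spl.split T hd (fun X hX => by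
    rw [← cnt_eq_ins]; exact hs X hX)
  exact ⟨L, M, h1, h2, sp_of_spl h3, sp_of_spl h4⟩

/-- M3. See part (C) of the proof. -/
theorem split_lemma [Fintype V] (T : Finset (Sym2 V)) (hd : ∀ e ∈ T, ¬ e.IsDiag)
    (hs : ∀ X : Finset V, 2 ≤ X.card → cnt T X + 6 ≤ 4 * X.card) :
    ∃ L₁ L₂ : Finset (Sym2 V), L₁ ∪ L₂ = T ∧ Sp L₁ ∧ Sp L₂ := by
  obtain ⟨L, M, _, h2, h3, h4⟩ := split_lemma' T hd hs
  exact ⟨L, M, h2, h3, h4⟩

end Pool.Agent.Lib.RACS
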