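import Pool.Agent.Lib.RACS.Order
import Pool.Agent.Lib.RACS.Union
import Pool.Agent.Lib.RACS.Draw

/-!
# Sparse graphs have RAC drawings with two bends (MP_bf8d95_lc)
-/

set_option autoImplicit false

open Pool.Agent.Lib.RACG

namespace Pool.Agent.Lib.RACS

theorem mainS {V : Type} [Finite V] (G : SimpleGraph V)
    (h : ∀ X : Finset V, 2 ≤ X.card →
      {e | e ∈ G.edgeSet ∧ ∀ v ∈ e, v ∈ X}.ncard + 6 ≤ 4 * X.card) :
    ∃ D : Dr V, IsRAC 2 G D := by
  classical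
  haveI := Fintype.ofFinite V
  have h1 : ∀ X : Finset V, 2 ≤ X.card → cnt G.edgeFinset X + 6 ≤ 4 * X.card := by
    intro X hX
    have h2 : ((G.edgeFinset ∩ X.sym2 : Finset (Sym2 V)) : Set (Sym2 V)) =
        {e | e ∈ G.edgeSet ∧ ∀ v ∈ e, v ∈ X} := by
      ext e
      rw [Finset.mem_coe, Finset.mem_inter, Finset.mem_sym2_iff, SimpleGraph.mem_edgeFinset]
      rfl
    have h3 := h X hX
    rw [← h2, Set.ncard_coe_finset] at h3
    exact h3
  have hd : ∀ e ∈ G.edgeFinset, ¬ e.IsDiag := fun e he =>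
    G.not_isDiag_of_mem_edgeSet (by simpa using he)
  obtain ⟨L₁, L₂, hL, hs₁, hs₂⟩ := split_lemma G.edgeFinset hd h1
  have hu : ∀ L : Finset (Sym2 V), L ⊆ Finset.univ.sym2 := fun L e _ =>
    Finset.mem_sym2_iff.2 fun a _ => Finset.mem_univ a
  have hd₁ : ∀ e ∈ L₁, ¬ e.IsDiag := fun e he => hd e (hL ▸ Finset.mem_union_left _ he)
  have hd₂ : ∀ e ∈ L₂, ¬ e.IsDiag := fun e he => hd e (hL ▸ Finset.mem_union_right _ he)
  exact draw G L₁ L₂ (fun e he => by rw [hL]; simpa using he)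
    (order_lemma Finset.univ L₁ (hu L₁) hd₁ hs₁) (order_lemma Finset.univ L₂ (hu L₂) hd₂ hs₂)

end Pool.Agent.Lib.RACS
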