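import Pool.Agent.Lib.RACS.Pair
import Pool.Agent.Lib.RACS.Insert

/-!
# The order lemma (MP_bf8d95_lc): (2,3)-sparse graphs are ordered
-/

set_option autoImplicit false

namespace Pool.Agent.Lib.RACS

variable {V : Type} [DecidableEq V]

namespace OrderAux

omit [DecidableEq V] in
/-- at most one vertex -/
theorem ordered_small {S : Finset V} {T : Finset (Sym2 V)} (hT : T ⊆ S.sym2)
    (hd : ∀ e ∈ T, ¬ e.IsDiag) (h : S.card ≤ 1) : Ordered S T := by
  refine ⟨fun _ => 0, id, id, ?_, fun v hv => ⟨hv, le_rfl⟩, fun v hv => ⟨hv, le_rfl⟩, ?_⟩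
  · intro x hx y hy _
    exact Finset.card_le_one.1 h x hx y hy
  · intro u w huw
    exfalso
    have h1 := Finset.mem_sym2_iff.1 (hT huw)
    have h2 : u = w := Finset.card_le_one.1 h u (h1 u (Sym2.mem_mk_left u w)) w
      (h1 w (Sym2.mem_mk_right u w))
    exact hd _ huw (by rw [Sym2.mk_isDiag_iff]; exact h2)

/-- a vertex with at most three edges -/
theorem exists_deg_le {S : Finset V} {T : Finset (Sym2 V)} (hT : T ⊆ S.sym2) (hs : Sp T)
    (h2 : 2 ≤ S.card) : ∃ v ∈ S, (T.filter (fun e => v ∈ e)).card ≤ 3 := by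
  by_contra hcon
  push Not at hcon
  have h1 : ∑ v ∈ S, (T.filter (fun e => v ∈ e)).card =
      ∑ e ∈ T, (S.filter (fun v => v ∈ e)).card :=
    Finset.sum_card_bipartiteAbove_eq_sum_card_bipartiteBelow (fun v e => v ∈ e)
  have h3 : ∑ v ∈ S, 4 ≤ ∑ v ∈ S, (T.filter (fun e => v ∈ e)).card :=
    Finset.sum_le_sum fun v hv => hcon v hv
  have h4 : ∑ e ∈ T, (S.filter (fun v => v ∈ e)).card ≤ ∑ e ∈ T, 2 := by
    refine Finset.sum_le_sum fun e _ => ?_
    induction e with
    | _ x y =>
      refine (Finset.card_le_card ?_).trans (Finset.card_le_two (a := x) (b := y))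
      intro z hz
      rw [Finset.mem_filter, Sym2.mem_iff] at hz
      rw [Finset.mem_insert, Finset.mem_singleton]
      exact hz.2
  have h5 := hs S h2
  have h6 : cnt T S = T.card := by
    unfold cnt
    rw [Finset.inter_eq_left.2 hT]
  rw [Finset.sum_const, smul_eq_mul] at h3 h4
  omega

omit [DecidableEq V] in
/-- the other end -/
theorem other_end {S : Finset V} {T : Finset (Sym2 V)} (hT : T ⊆ S.sym2)
    (hd : ∀ e ∈ T, ¬ e.IsDiag) {v : V} {e : Sym2 V} (he : e ∈ T) (hv : v ∈ e) :
    ∃ a ∈ S, v ≠ a ∧ e = s(v, a) := by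
  obtain ⟨a, rfl⟩ := Sym2.mem_iff_exists.1 hv
  refine ⟨a, Finset.mem_sym2_iff.1 (hT he) a (Sym2.mem_mk_right v a), ?_, rfl⟩
  intro h
  exact hd _ he (by rw [Sym2.mk_isDiag_iff]; exact h)

/-- the rest lies in `S` without `v` -/
theorem rest_sub {S : Finset V} {T : Finset (Sym2 V)} (hT : T ⊆ S.sym2) (v : V) :
    T.filter (fun e => v ∉ e) ⊆ (S.erase v).sym2 := by
  intro e he
  rw [Finset.mem_filter] at he
  rw [Finset.mem_sym2_iff]
  intro a ha
  rw [Finset.mem_erase]
  refine ⟨?_, Finset.mem_sym2_iff.1 (hT he.1) a ha⟩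
  rintro rfl
  exact he.2 ha

end OrderAux

open OrderAux

/-- M2. Induction on the number of vertices: the sum of the degrees is at most `4 |S| - 6`, so some
vertex `v` in `S` has at most three edges; then `insert0`, `insert2` or `exists_pair`, `insert3`. -/
theorem order_lemma (S : Finset V) (T : Finset (Sym2 V)) (hT : T ⊆ S.sym2)
    (hd : ∀ e ∈ T, ¬ e.IsDiag) (hs : Sp T) : Ordered S T := by
  obtain ⟨n, hn⟩ : ∃ n, S.card = n := ⟨_, rfl⟩
  induction n generalizing S T with
  | zero => exact ordered_small hT hd (by omega)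
  | succ n ih =>
    rcases Nat.lt_or_ge S.card 2 with hlt | h2
    · exact ordered_small hT hd (by omega)
    obtain ⟨v, hvS, hdeg⟩ := exists_deg_le hT hs h2
    have hcard : (S.erase v).card = n := by
      rw [Finset.card_erase_of_mem hvS, hn]
      rfl
    set T' : Finset (Sym2 V) := T.filter (fun e => v ∉ e) with hT'
    have hT'T : T' ⊆ T := Finset.filter_subset _ _
    have hT'S : T' ⊆ (S.erase v).sym2 := rest_sub hT v
    have hd' : ∀ e ∈ T', ¬ e.IsDiag := fun e he => hd e (hT'T he)
    have hs' : Sp T' := Sp.mono hT'T hs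
    -- the induction hypothesis with one more edge
    have hadd : ∀ x ∈ S, ∀ y ∈ S, v ≠ x → v ≠ y → x ≠ y → Sp (insert s(x, y) T') →
        Ordered (S.erase v) (insert s(x, y) T') := by
      intro x hx y hy hvx hvy hxy hsp
      refine ih (S.erase v) _ ?_ ?_ hsp hcard
      · intro e he
        rw [Finset.mem_insert] at he
        rcases he with rfl | he
        · rw [Finset.mem_sym2_iff]
          intro a ha
          rw [Sym2.mem_iff] at ha
          rw [Finset.mem_erase]
          rcases ha with rfl | rfl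
          · exact ⟨hvx.symm, hx⟩
          · exact ⟨hvy.symm, hy⟩
        · exact hT'S he
      · intro e he
        rw [Finset.mem_insert] at he
        rcases he with rfl | he
        · rw [Sym2.mk_isDiag_iff]
          exact hxy
        · exact hd' e he
    set N : Finset (Sym2 V) := T.filter (fun e => v ∈ e) with hN
    have hNm : ∀ e, e ∈ N ↔ e ∈ T ∧ v ∈ e := fun e => by rw [hN, Finset.mem_filter]
    obtain h0 | h1 | h2' | h3 : N.card = 0 ∨ N.card = 1 ∨ N.card = 2 ∨ N.card = 3 := by omega
    · rw [Finset.card_eq_zero] at h0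
      have hinc : ∀ e ∈ T, v ∉ e := by
        intro e he hve
        have h4 := (hNm e).2 ⟨he, hve⟩
        rw [h0] at h4
        exact absurd h4 (Finset.notMem_empty e)
      refine insert0 hinc (ih (S.erase v) T ?_ hd hs hcard)
      have h5 : T' = T := Finset.filter_true_of_mem hinc
      rw [← h5]
      exact hT'S
    · obtain ⟨e1, he1⟩ := Finset.card_eq_one.1 h1
      obtain ⟨h4, h5⟩ := (hNm e1).1 (by rw [he1]; exact Finset.mem_singleton_self e1)
      obtain ⟨a, ha, hva, rfl⟩ := other_end hT hd h4 h5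
      refine insert2 hvS ha ha hva hva ?_ (ih (S.erase v) T' hT'S hd' hs' hcard)
      intro e he hve
      have h6 := (hNm e).2 ⟨he, hve⟩
      rw [he1, Finset.mem_singleton] at h6
      exact Or.inl h6
    · obtain ⟨e1, e2, -, he12⟩ := Finset.card_eq_two.1 h2'
      obtain ⟨h4, h5⟩ := (hNm e1).1 (by rw [he12]; simp)
      obtain ⟨h6, h7⟩ := (hNm e2).1 (by rw [he12]; simp)
      obtain ⟨a, ha, hva, rfl⟩ := other_end hT hd h4 h5
      obtain ⟨b, hb, hvb, rfl⟩ := other_end hT hd h6 h7
      refine insert2 hvS ha hb hva hvb ?_ (ih (S.erase v) T' hT'S hd' hs' hcard)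
      intro e he hve
      have h8 := (hNm e).2 ⟨he, hve⟩
      rw [he12, Finset.mem_insert, Finset.mem_singleton] at h8
      exact h8
    · obtain ⟨e1, e2, e3, hne12, hne13, hne23, he123⟩ := Finset.card_eq_three.1 h3
      obtain ⟨h4, h5⟩ := (hNm e1).1 (by rw [he123]; simp)
      obtain ⟨h6, h7⟩ := (hNm e2).1 (by rw [he123]; simp)
      obtain ⟨h8, h9⟩ := (hNm e3).1 (by rw [he123]; simp)
      obtain ⟨a, ha, hva, rfl⟩ := other_end hT hd h4 h5
      obtain ⟨b, hb, hvb, rfl⟩ := other_end hT hd h6 h7
      obtain ⟨c, hc, hvc, rfl⟩ := other_end hT hd h8 h9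
      have hab : a ≠ b := by
        rintro rfl
        exact hne12 rfl
      have hac : a ≠ c := by
        rintro rfl
        exact hne13 rfl
      have hbc : b ≠ c := by
        rintro rfl
        exact hne23 rfl
      have hinc : ∀ e ∈ T, v ∈ e → e = s(v, a) ∨ e = s(v, b) ∨ e = s(v, c) := by
        intro e he hve
        have h10 := (hNm e).2 ⟨he, hve⟩
        rw [he123, Finset.mem_insert, Finset.mem_insert, Finset.mem_singleton] at h10
        exact h10
      obtain ⟨h11, h10⟩ | ⟨h11, h10⟩ | ⟨h11, h10⟩ := exists_pair (T := T) (v := v) (a := a) (b := b) (c := c)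
        (hs := hs) (hd := hd) (hab := hab) (hbc := hbc) (hac := hac) (hva := hva) (hvb := hvb)
        (hvc := hvc) (ha := h4) (hb := h6) (hc := h8)
      · exact insert3 hvS ha hb hc hva hvb hvc hab hbc hac h11 hinc
          (hadd a ha b hb hva hvb hab h10)
      · refine insert3 hvS hb hc ha hvb hvc hva hbc hac.symm hab.symm h11 ?_
          (hadd b hb c hc hvb hvc hbc h10)
        intro e he hve
        rcases hinc e he hve with h | h | h
        · exact Or.inr (Or.inr h)
        · exact Or.inl h
        · exact Or.inr (Or.inl h)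
      · refine insert3 hvS ha hc hb hva hvc hvb hac hbc.symm hab h11 ?_
          (hadd a ha c hc hva hvc hac h10)
        intro e he hve
        rcases hinc e he hve with h | h | h
        · exact Or.inl h
        · exact Or.inr (Or.inr h)
        · exact Or.inr (Or.inl h)

end Pool.Agent.Lib.RACS
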