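import Pool.Agent.Lib.RACS.Sparse

/-!
# Vertices of degree three (MP_bf8d95_lc)
-/

set_option autoImplicit false

namespace Pool.Agent.Lib.RACS

variable {V : Type} [DecidableEq V]

/-- edges inside a set without `v` are not changed by deleting `v` -/
theorem filter_inter_sym2 (T : Finset (Sym2 V)) {v : V} {X : Finset V} (hv : v ∉ X) :
    (T.filter (fun e => v ∉ e)) ∩ X.sym2 = T ∩ X.sym2 := by
  ext e
  simp only [Finset.mem_inter, Finset.mem_filter, Finset.mem_sym2_iff]
  constructor
  · rintro ⟨⟨h1, _⟩, h3⟩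
    exact ⟨h1, h3⟩
  · rintro ⟨h1, h3⟩
    exact ⟨⟨h1, fun h => hv (h3 v h)⟩, h3⟩

/-- deleting `v` from a set does not change the number of edges not at `v` -/
theorem filter_inter_erase (T : Finset (Sym2 V)) (v : V) (X : Finset V) :
    (T.filter (fun e => v ∉ e)) ∩ (X.erase v).sym2 = (T.filter (fun e => v ∉ e)) ∩ X.sym2 := by
  ext e
  simp only [Finset.mem_inter, Finset.mem_filter, Finset.mem_sym2_iff, Finset.mem_erase]
  constructor
  · rintro ⟨⟨h1, h2⟩, h3⟩
    exact ⟨⟨h1, h2⟩, fun a ha => (h3 a ha).2⟩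
  · rintro ⟨⟨h1, h2⟩, h3⟩
    exact ⟨⟨h1, h2⟩, fun a ha => ⟨fun hav => h2 (hav ▸ ha), h3 a ha⟩⟩

/-- a pair which cannot be added lies in a tight set -/
theorem exists_tight {T : Finset (Sym2 V)} (hs : Sp T) {v x y : V} (hxy : x ≠ y) (hvx : v ≠ x)
    (hvy : v ≠ y) (hn : ¬ Sp (insert s(x, y) (T.filter (fun e => v ∉ e)))) :
    s(x, y) ∉ T ∧ ∃ X : Finset V, Tight T X ∧ x ∈ X ∧ y ∈ X ∧ v ∉ X := by
  have hsub : T.filter (fun e => v ∉ e) ⊆ T := Finset.filter_subset _ _
  have hs' : Sp (T.filter (fun e => v ∉ e)) := hs.mono hsub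
  constructor
  · intro hT
    apply hn
    have hmem : s(x, y) ∈ T.filter (fun e => v ∉ e) := by
      rw [Finset.mem_filter]
      refine ⟨hT, ?_⟩
      rw [Sym2.mem_iff]
      tauto
    rw [Finset.insert_eq_of_mem hmem]
    exact hs'
  · unfold Sp at hn
    push Not at hn
    obtain ⟨X, hX, hlt⟩ := hn
    have h1 := hs' X hX
    by_cases he : s(x, y) ∈ X.sym2
    · have h2 : cnt (insert s(x, y) (T.filter (fun e => v ∉ e))) X ≤
          cnt (T.filter (fun e => v ∉ e)) X + 1 := by
        unfold cnt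
        rw [Finset.insert_inter_of_mem he]
        exact Finset.card_insert_le _ _
      have hxyX := Finset.mk_mem_sym2_iff.mp he
      have h3 : cnt (T.filter (fun e => v ∉ e)) X + 3 = 2 * X.card := by omega
      have hvX : v ∉ X := by
        intro hvX
        have h4 : (X.erase v).card = X.card - 1 := Finset.card_erase_of_mem hvX
        have h5 : ({x, y} : Finset V) ⊆ X.erase v := by
          intro z hz
          rw [Finset.mem_insert, Finset.mem_singleton] at hz
          rw [Finset.mem_erase]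
          rcases hz with rfl | rfl
          · exact ⟨fun h => hvx h.symm, hxyX.1⟩
          · exact ⟨fun h => hvy h.symm, hxyX.2⟩
        have h6 := Finset.card_le_card h5
        rw [Finset.card_pair hxy] at h6
        have h7 := hs' (X.erase v) h6
        have h8 : cnt (T.filter (fun e => v ∉ e)) (X.erase v) =
            cnt (T.filter (fun e => v ∉ e)) X := by
          unfold cnt
          rw [filter_inter_erase]
        omega
      refine ⟨X, ⟨hX, ?_⟩, hxyX.1, hxyX.2, hvX⟩
      have h9 : cnt (T.filter (fun e => v ∉ e)) X = cnt T X := by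
        unfold cnt
        rw [filter_inter_sym2 T hvX]
      omega
    · exfalso
      have h2 : cnt (insert s(x, y) (T.filter (fun e => v ∉ e))) X =
          cnt (T.filter (fun e => v ∉ e)) X := by
        unfold cnt
        rw [Finset.insert_inter_of_notMem he]
      omega

/-- a vertex with three neighbours in a set: the set is not tight -/
theorem no_tight {T : Finset (Sym2 V)} (hs : Sp T) {v a b c : V} (hab : a ≠ b) (hbc : b ≠ c)
    (hac : a ≠ c) (ha : s(v, a) ∈ T) (hb : s(v, b) ∈ T) (hc : s(v, c) ∈ T) {W : Finset V}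
    (hv : v ∉ W) (haW : a ∈ W) (hbW : b ∈ W) (hcW : c ∈ W) : cnt T W + 3 < 2 * W.card := by
  by_contra hcon
  have hva : v ≠ a := fun h => hv (h ▸ haW)
  have hvb : v ≠ b := fun h => hv (h ▸ hbW)
  have hvc : v ≠ c := fun h => hv (h ▸ hcW)
  have h1 : (insert v W).card = W.card + 1 := Finset.card_insert_of_notMem hv
  have h2 : 1 ≤ W.card := Finset.card_pos.mpr ⟨a, haW⟩
  have h3 := hs (insert v W) (by omega)
  have h4 : (T ∩ W.sym2) ∪ {s(v, a), s(v, b), s(v, c)} ⊆ T ∩ (insert v W).sym2 := by
    intro e he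
    rw [Finset.mem_union] at he
    rcases he with he | he
    · rw [Finset.mem_inter] at he ⊢
      exact ⟨he.1, Finset.sym2_mono (Finset.subset_insert v W) he.2⟩
    · simp only [Finset.mem_insert, Finset.mem_singleton] at he
      rw [Finset.mem_inter]
      rcases he with rfl | rfl | rfl
      · exact ⟨ha, Finset.mk_mem_sym2_iff.mpr ⟨Finset.mem_insert_self _ _,
          Finset.mem_insert_of_mem haW⟩⟩
      · exact ⟨hb, Finset.mk_mem_sym2_iff.mpr ⟨Finset.mem_insert_self _ _,
          Finset.mem_insert_of_mem hbW⟩⟩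
      · exact ⟨hc, Finset.mk_mem_sym2_iff.mpr ⟨Finset.mem_insert_self _ _,
          Finset.mem_insert_of_mem hcW⟩⟩
  have h5 : Disjoint (T ∩ W.sym2) ({s(v, a), s(v, b), s(v, c)} : Finset (Sym2 V)) := by
    rw [Finset.disjoint_left]
    intro e he he'
    rw [Finset.mem_inter, Finset.mem_sym2_iff] at he
    simp only [Finset.mem_insert, Finset.mem_singleton] at he'
    apply hv
    rcases he' with rfl | rfl | rfl
    · exact he.2 v (Sym2.mem_mk_left _ _)
    · exact he.2 v (Sym2.mem_mk_left _ _)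
    · exact he.2 v (Sym2.mem_mk_left _ _)
  have h6 : ({s(v, a), s(v, b), s(v, c)} : Finset (Sym2 V)).card = 3 := by
    apply Finset.card_eq_three.mpr
    refine ⟨_, _, _, ?_, ?_, ?_, rfl⟩
    · intro h
      rw [Sym2.eq_iff] at h
      tauto
    · intro h
      rw [Sym2.eq_iff] at h
      tauto
    · intro h
      rw [Sym2.eq_iff] at h
      tauto
  have h7 := Finset.card_le_card h4
  rw [Finset.card_union_of_disjoint h5, h6] at h7
  unfold cnt at h3 hcon
  omega

/-- a single vertex spans no edge of a loop-free graph -/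
theorem cnt_singleton {T : Finset (Sym2 V)} (hd : ∀ e ∈ T, ¬ e.IsDiag) (x : V) :
    cnt T {x} = 0 := by
  unfold cnt
  rw [Finset.card_eq_zero, Finset.eq_empty_iff_forall_notMem]
  intro e he
  rw [Finset.mem_inter] at he
  obtain ⟨h1, h2⟩ := he
  induction e with
  | _ p q =>
    rw [Finset.mk_mem_sym2_iff, Finset.mem_singleton, Finset.mem_singleton] at h2
    apply hd _ h1
    rw [Sym2.mk_isDiag_iff, h2.1, h2.2]

/-- a pair which is not an edge spans no edge -/
theorem cnt_pair {T : Finset (Sym2 V)} (hd : ∀ e ∈ T, ¬ e.IsDiag) {x y : V}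
    (hxy : s(x, y) ∉ T) : cnt T {x, y} = 0 := by
  unfold cnt
  rw [Finset.card_eq_zero, Finset.eq_empty_iff_forall_notMem]
  intro e he
  rw [Finset.mem_inter] at he
  obtain ⟨h1, h2⟩ := he
  induction e with
  | _ p q =>
    rw [Finset.mk_mem_sym2_iff, Finset.mem_insert, Finset.mem_singleton, Finset.mem_insert,
      Finset.mem_singleton] at h2
    have h3 := hd _ h1
    rw [Sym2.mk_isDiag_iff] at h3
    rcases h2 with ⟨rfl | rfl, rfl | rfl⟩
    · exact h3 rfl
    · exact hxy h1
    · exact hxy (Sym2.eq_swap ▸ h1)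
    · exact h3 rfl

/-- a pair which is an edge or cannot be added lies in a tight set -/
theorem exists_tight' {T : Finset (Sym2 V)} (hs : Sp T) {v x y : V} (hxy : x ≠ y) (hvx : v ≠ x)
    (hvy : v ≠ y) (hn : ¬ (s(x, y) ∉ T ∧ Sp (insert s(x, y) (T.filter (fun e => v ∉ e))))) :
    ∃ X : Finset V, Tight T X ∧ x ∈ X ∧ y ∈ X ∧ v ∉ X := by
  by_cases h : s(x, y) ∈ T
  · refine ⟨{x, y}, tight_pair hs hxy h, by simp, by simp, ?_⟩
    rw [Finset.mem_insert, Finset.mem_singleton]
    tauto
  · exact (exists_tight hs hxy hvx hvy (fun h' => hn ⟨h, h'⟩)).2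

/-- three sets meeting pairwise in one vertex -/
theorem cnt_three {T : Finset (Sym2 V)} (hd : ∀ e ∈ T, ¬ e.IsDiag) {X Y Z : Finset V} {a b c : V}
    (h1 : X ∩ Y = {b}) (h2 : Y ∩ Z = {c}) (h3 : X ∩ Z = {a}) :
    cnt T X + cnt T Y + cnt T Z ≤ cnt T (X ∪ Y ∪ Z) := by
  have hdis : ∀ (P Q : Finset V) (x : V), P ∩ Q = {x} → Disjoint (T ∩ P.sym2) (T ∩ Q.sym2) := by
    intro P Q x hPQ
    rw [Finset.disjoint_iff_inter_eq_empty]
    have h4 : (T ∩ P.sym2) ∩ (T ∩ Q.sym2) = T ∩ (P ∩ Q).sym2 := by
      rw [← inter_sym2]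
      ext e
      simp only [Finset.mem_inter]
      tauto
    rw [h4, hPQ]
    have h5 := cnt_singleton hd x
    unfold cnt at h5
    exact Finset.card_eq_zero.1 h5
  have d1 := hdis X Y b h1
  have d2 := hdis Y Z c h2
  have d3 := hdis X Z a h3
  unfold cnt
  rw [← Finset.card_union_of_disjoint d1,
    ← Finset.card_union_of_disjoint (Finset.disjoint_union_left.2 ⟨d3, d2⟩)]
  apply Finset.card_le_card
  intro e he
  rw [Finset.mem_union, Finset.mem_union, Finset.mem_inter, Finset.mem_inter,
    Finset.mem_inter] at he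
  rw [Finset.mem_inter]
  rcases he with (he | he) | he
  · exact ⟨he.1, Finset.sym2_mono (Finset.subset_union_left.trans Finset.subset_union_left) he.2⟩
  · exact ⟨he.1, Finset.sym2_mono (Finset.subset_union_right.trans Finset.subset_union_left) he.2⟩
  · exact ⟨he.1, Finset.sym2_mono Finset.subset_union_right he.2⟩

/-- M2a. A vertex `v` with the three neighbours `a, b, c` in a (2,3)-sparse graph: after deleting `v`
one can add one of the three pairs, which is not an edge. (If not, the three pairs lie in tight sets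
of `T` not containing `v`; two of them meeting in two vertices have tight union, three meeting
pairwise in one vertex too; a tight set containing `a, b, c` but not `v` contradicts `Sp T` for this
set with `v` added.) -/
theorem exists_pair {T : Finset (Sym2 V)} (hs : Sp T) (hd : ∀ e ∈ T, ¬ e.IsDiag) {v a b c : V}
    (hab : a ≠ b) (hbc : b ≠ c)
    (hac : a ≠ c) (hva : v ≠ a) (hvb : v ≠ b) (hvc : v ≠ c) (ha : s(v, a) ∈ T) (hb : s(v, b) ∈ T)
    (hc : s(v, c) ∈ T) :
    (s(a, b) ∉ T ∧ Sp (insert s(a, b) (T.filter (fun e => v ∉ e)))) ∨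
      (s(b, c) ∉ T ∧ Sp (insert s(b, c) (T.filter (fun e => v ∉ e)))) ∨
        (s(a, c) ∉ T ∧ Sp (insert s(a, c) (T.filter (fun e => v ∉ e)))) := by
  by_contra hcon
  rw [not_or, not_or] at hcon
  obtain ⟨h1, h2, h3⟩ := hcon
  obtain ⟨X, hX, haX, hbX, hvX⟩ := exists_tight' hs hab hva hvb h1
  obtain ⟨Y, hY, hbY, hcY, hvY⟩ := exists_tight' hs hbc hvb hvc h2
  obtain ⟨Z, hZ, haZ, hcZ, hvZ⟩ := exists_tight' hs hac hva hvc h3
  by_cases hXY : 2 ≤ (X ∩ Y).card
  · have h4 := (tight_union_inter hs hX hY hXY).1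
    have h5 := no_tight hs hab hbc hac ha hb hc (W := X ∪ Y)
      (by rw [Finset.mem_union]; tauto) (Finset.mem_union_left _ haX)
      (Finset.mem_union_left _ hbX) (Finset.mem_union_right _ hcY)
    have h6 := h4.2
    omega
  by_cases hYZ : 2 ≤ (Y ∩ Z).card
  · have h4 := (tight_union_inter hs hY hZ hYZ).1
    have h5 := no_tight hs hab hbc hac ha hb hc (W := Y ∪ Z)
      (by rw [Finset.mem_union]; tauto) (Finset.mem_union_right _ haZ)
      (Finset.mem_union_left _ hbY) (Finset.mem_union_left _ hcY)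
    have h6 := h4.2
    omega
  by_cases hXZ : 2 ≤ (X ∩ Z).card
  · have h4 := (tight_union_inter hs hX hZ hXZ).1
    have h5 := no_tight hs hab hbc hac ha hb hc (W := X ∪ Z)
      (by rw [Finset.mem_union]; tauto) (Finset.mem_union_left _ haX)
      (Finset.mem_union_left _ hbX) (Finset.mem_union_right _ hcZ)
    have h6 := h4.2
    omega
  have eXY : X ∩ Y = {b} := by
    symm
    apply Finset.eq_of_subset_of_card_le
    · rw [Finset.singleton_subset_iff, Finset.mem_inter]
      exact ⟨hbX, hbY⟩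
    · rw [Finset.card_singleton]
      omega
  have eYZ : Y ∩ Z = {c} := by
    symm
    apply Finset.eq_of_subset_of_card_le
    · rw [Finset.singleton_subset_iff, Finset.mem_inter]
      exact ⟨hcY, hcZ⟩
    · rw [Finset.card_singleton]
      omega
  have eXZ : X ∩ Z = {a} := by
    symm
    apply Finset.eq_of_subset_of_card_le
    · rw [Finset.singleton_subset_iff, Finset.mem_inter]
      exact ⟨haX, haZ⟩
    · rw [Finset.card_singleton]
      omega
  have eU : (X ∪ Y) ∩ Z = {a, c} := by
    rw [Finset.union_inter_distrib_right, eXZ, eYZ]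
    rfl
  have c2 := cnt_three hd eXY eYZ eXZ
  have d1 := Finset.card_union_add_card_inter X Y
  have d2 := Finset.card_union_add_card_inter (X ∪ Y) Z
  rw [eXY, Finset.card_singleton] at d1
  rw [eU, Finset.card_pair hac] at d2
  have h5 := no_tight hs hab hbc hac ha hb hc (W := X ∪ Y ∪ Z)
    (by rw [Finset.mem_union, Finset.mem_union]; tauto)
    (Finset.mem_union_left _ (Finset.mem_union_left _ haX))
    (Finset.mem_union_left _ (Finset.mem_union_left _ hbX))
    (Finset.mem_union_right _ hcZ)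
  have e1 := hX.2
  have e2 := hY.2
  have e3 := hZ.2
  omega

end Pool.Agent.Lib.RACS
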